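import Pool.Agent.H2x430.Tal
import Pool.Agent.Results.MP_0430e4_lc.ConstantWeightCriterion

/-!
# H2x430: amplification of the probability of a decoding error by a small additional noise
-/

set_option autoImplicit false

namespace Pool.Agent.H2x430

open Finset
open Pool.Agent.Results.MP_0430e4_lc.ConstantWeightCriterion (weight tr sum_prod pow_lower)

/-- the overlap -/
def ov {n : ℕ} (z u : Fin n → Bool) : ℕ := (univ.filter fun i => z i = true ∧ u i = true).card

/-- the union -/
def bor {n : ℕ} (z w : Fin n → Bool) : Fin n → Bool := fun i => z i || w i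

/-- union of two independent random words -/
theorem couple {p q ρ : ℝ} (hρ : 1 - ρ = (1 - p) * (1 - q)) : ∀ (n : ℕ) (φ : (Fin n → Bool) → ℝ),
    ∑ z, ∑ w, mu p z * mu q w * φ (bor z w) = ∑ v, mu ρ v * φ v := by
  intro n
  induction n with
  | zero =>
    intro φ
    simp [mu]
    congr 1
    exact Subsingleton.elim _ _
  | succ n ih =>
    intro φ
    have hb : ∀ (b c : Bool) (z w : Fin n → Bool), bor (Fin.cons b z : Fin (n + 1) → Bool)
        (Fin.cons c w) = Fin.cons (b || c) (bor z w) := by
      intro b c z w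
      funext i
      refine Fin.cases ?_ (fun j => ?_) i
      · rfl
      · rfl
    have h2 : ∀ (b c : Bool), ∑ z : Fin n → Bool, ∑ w : Fin n → Bool,
        (if b = true then p else 1 - p) * mu p z * ((if c = true then q else 1 - q) * mu q w) *
          φ (Fin.cons (b || c) (bor z w)) = (if b = true then p else 1 - p) *
          (if c = true then q else 1 - q) * ∑ v : Fin n → Bool, mu ρ v * φ (Fin.cons (b || c) v) := by
      intro b c
      rw [← ih (fun v => φ (Fin.cons (b || c) v)), Finset.mul_sum]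
      refine Finset.sum_congr rfl fun z _ => ?_
      rw [Finset.mul_sum]
      refine Finset.sum_congr rfl fun w _ => ?_
      ring
    have a1 := h2 false false
    have a2 := h2 false true
    have a3 := h2 true false
    have a4 := h2 true true
    simp only [Bool.or_false, Bool.or_true, Bool.false_eq_true, if_false, if_true] at a1 a2 a3 a4
    simp only [sum_cons, mu_cons, hb, Finset.sum_add_distrib, Bool.or_false, Bool.or_true,
      Bool.false_eq_true, if_false, if_true]
    rw [a1, a2, a3, a4]
    simp only [mul_assoc, ← Finset.mul_sum]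
    have e1 : (1 - p) * (1 - q) = 1 - ρ := hρ.symm
    have e2 : ρ = 1 - (1 - p) * (1 - q) := by linarith
    rw [e2]
    ring

/-- few elements of a large set are hit with small probability -/
theorem low {q : ℝ} (h0 : 0 ≤ q) (h1 : q ≤ 1) {n : ℕ} (D : Finset (Fin n)) (K : ℝ)
    (B : Finset (Fin n → Bool))
    (hB : ∀ w ∈ B, ((D.filter fun i => w i = true).card : ℝ) ≤ K) :
    ∑ w ∈ B, mu q w ≤ Real.exp (K * Real.log 2 - q * D.card / 2) := by
  classical
  have e1 : ∑ w : Fin n → Bool, ∏ i, ((if w i = true then q else 1 - q) *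
      (if w i = true ∧ i ∈ D then (1 / 2 : ℝ) else 1)) = (1 - q / 2) ^ D.card := by
    have h := sum_prod (n := n) (fun i b => (if b = true then q else 1 - q) *
      (if b = true ∧ i ∈ D then (1 / 2 : ℝ) else 1))
    rw [h]
    have e2 : ∀ i : Fin n, ((if (false : Bool) = true then q else 1 - q) *
      (if (false : Bool) = true ∧ i ∈ D then (1 / 2 : ℝ) else 1) +
      (if (true : Bool) = true then q else 1 - q) *
      (if (true : Bool) = true ∧ i ∈ D then (1 / 2 : ℝ) else 1)) =
        if i ∈ D then 1 - q / 2 else 1 := by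
      intro i
      by_cases hi : i ∈ D <;> simp [hi]
      ring
    rw [Finset.prod_congr rfl fun i _ => e2 i, Finset.prod_ite_mem]
    simp
  have e3 : (1 - q / 2) ^ D.card ≤ Real.exp (-(q * D.card / 2)) := by
    have h2 : 1 - q / 2 ≤ Real.exp (-(q / 2)) := by
      have := Real.add_one_le_exp (-(q / 2))
      linarith
    calc (1 - q / 2) ^ D.card ≤ Real.exp (-(q / 2)) ^ D.card :=
          pow_le_pow_left₀ (by linarith) h2 _
      _ = _ := by rw [← Real.exp_nat_mul]; congr 1; ring
  have e4 : ∀ w ∈ B, Real.exp (-(K * Real.log 2)) * mu q w ≤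
      ∏ i, ((if w i = true then q else 1 - q) *
      (if w i = true ∧ i ∈ D then (1 / 2 : ℝ) else 1)) := by
    intro w hw
    rw [Finset.prod_mul_distrib, mul_comm]
    refine mul_le_mul_of_nonneg_left ?_ (mu_nonneg h0 h1 w)
    have e5 : ∏ i : Fin n, (if w i = true ∧ i ∈ D then (1 / 2 : ℝ) else 1) =
        (1 / 2) ^ (D.filter fun i => w i = true).card := by
      rw [Finset.prod_ite, Finset.prod_const, Finset.prod_const_one, mul_one]
      congr 2
      ext i
      simp [and_comm]
    rw [e5]
    have e6 : (1 / 2 : ℝ) ^ (D.filter fun i => w i = true).card =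
        Real.exp (-(((D.filter fun i => w i = true).card : ℝ) * Real.log 2)) := by
      rw [Real.exp_neg, mul_comm, Real.exp_mul, Real.exp_log (by norm_num), Real.rpow_natCast,
        one_div, inv_pow]
    rw [e6]
    apply Real.exp_le_exp.2
    have h2 := hB w hw
    have h3 : 0 ≤ Real.log 2 := Real.log_nonneg (by norm_num)
    have := mul_le_mul_of_nonneg_right h2 h3
    linarith
  have e5 : Real.exp (-(K * Real.log 2)) * ∑ w ∈ B, mu q w ≤ Real.exp (-(q * D.card / 2)) := by
    rw [Finset.mul_sum]
    refine (Finset.sum_le_sum e4).trans (le_trans ?_ (e1.le.trans e3))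
    refine Finset.sum_le_sum_of_subset_of_nonneg (Finset.subset_univ _) fun w _ _ =>
      Finset.prod_nonneg fun i _ => ?_
    have : (0 : ℝ) ≤ if w i = true ∧ i ∈ D then (1 / 2 : ℝ) else 1 := by split_ifs <;> norm_num
    refine mul_nonneg ?_ this
    split_ifs <;> linarith
  have e6 : Real.exp (K * Real.log 2 - q * D.card / 2) =
      Real.exp (-(q * D.card / 2)) / Real.exp (-(K * Real.log 2)) := by
    rw [← Real.exp_sub]; congr 1; ring
  rw [e6, le_div_iff₀ (Real.exp_pos _), mul_comm]
  exact e5

/-- The words `z` for which at least half of some `u ∈ U` is covered. -/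
def Err {n : ℕ} (U : Finset (Fin n → Bool)) : Finset (Fin n → Bool) :=
  univ.filter fun z => ∃ u ∈ U, weight u ≤ 2 * ov z u

lemma mem_Err {n : ℕ} {U : Finset (Fin n → Bool)} {z : Fin n → Bool} :
    z ∈ Err U ↔ ∃ u ∈ U, weight u ≤ 2 * ov z u := by
  simp [Err]

lemma ov_le_dist {n : ℕ} (z z' u : Fin n → Bool) : ov z u ≤ ov z' u + hammingDist z' z := by
  classical
  unfold ov hammingDist
  refine le_trans (Finset.card_le_card ?_) (Finset.card_union_le _ _)
  intro i hi
  rw [Finset.mem_filter] at hi
  rw [Finset.mem_union, Finset.mem_filter, Finset.mem_filter]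
  by_cases h : z' i = true
  · exact Or.inl ⟨hi.1, h, hi.2.2⟩
  · refine Or.inr ⟨hi.1, fun h2 => h ?_⟩
    rw [h2]; exact hi.2.1

lemma ov_bor {n : ℕ} (z w u : Fin n → Bool) :
    ov (bor z w) u = ov z u +
      ((univ.filter fun i => u i = true ∧ z i = false).filter fun i => w i = true).card := by
  classical
  unfold ov bor
  rw [Finset.filter_filter, ← Finset.card_union_of_disjoint]
  · congr 1
    ext i
    simp only [Finset.mem_filter, Finset.mem_univ, true_and, Finset.mem_union, Bool.or_eq_true]
    cases hz : z i <;> cases hw : w i <;> cases hu : u i <;> simp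
  · rw [Finset.disjoint_left]
    intro i hi hi2
    simp only [Finset.mem_filter, Finset.mem_univ, true_and] at hi hi2
    rw [hi.1] at hi2
    exact Bool.noConfusion hi2.1.2

lemma weight_split {n : ℕ} (z u : Fin n → Bool) :
    weight u = ov z u + (univ.filter fun i => u i = true ∧ z i = false).card := by
  classical
  unfold weight ov
  rw [← Finset.card_union_of_disjoint]
  · congr 1
    ext i
    simp only [Finset.mem_filter, Finset.mem_univ, true_and, Finset.mem_union]
    cases z i <;> cases u i <;> simp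
  · rw [Finset.disjoint_left]
    intro i hi hi2
    simp only [Finset.mem_filter, Finset.mem_univ, true_and] at hi hi2
    rw [hi.1] at hi2
    exact Bool.noConfusion hi2.2

/-- **Amplification.** -/
theorem amp {δ p q ρ : ℝ} (hδ0 : 0 < δ) (hδ : δ ≤ 1) (hp0 : 0 ≤ p) (hp1 : p ≤ 1) (hq0 : 0 ≤ q)
    (hq1 : q ≤ 1) (hρ : 1 - ρ = (1 - p) * (1 - q)) {n : ℕ} (U : Finset (Fin n → Bool))
    (hU : ∀ u ∈ U, δ * n ≤ weight u) :
    (∑ z ∈ Err U, mu p z) * (∑ z ∈ (Err U)ᶜ, mu ρ z) ≤
      2 * Real.exp (-((q * δ / 8) ^ 2 * n)) := by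
  classical
  obtain ⟨κ, hκ⟩ : ∃ κ, κ = q * δ / 8 := ⟨_, rfl⟩
  rw [← hκ]
  have hκ0 : 0 ≤ κ := by rw [hκ]; positivity
  have hκ1 : κ ≤ 1 := by
    rw [hκ]
    have := mul_le_mul hq1 hδ hδ0.le zero_le_one
    linarith
  have hn : (0 : ℝ) ≤ n := Nat.cast_nonneg n
  obtain ⟨D, hD⟩ : ∃ D : Finset (Fin n → Bool), D = univ.filter fun z =>
    ∃ u ∈ U, (weight u : ℝ) < 2 * ov z u + 2 * (κ * n) := ⟨_, rfl⟩
  -- far from `Err U`
  have h1 : (∑ z ∈ Err U, mu p z) * ∑ z ∈ Dᶜ, mu p z ≤ Real.exp (-(κ ^ 2 * n)) := by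
    refine blowup hp0 hp1 (Err U) Dᶜ hκ0 rfl ?_
    intro z hz g hg
    obtain ⟨u, hu, h2⟩ := mem_Err.1 hg
    by_contra hcon
    push Not at hcon
    apply Finset.mem_compl.1 hz
    rw [hD, Finset.mem_filter]
    refine ⟨Finset.mem_univ _, u, hu, ?_⟩
    have h3 : (ov g u : ℝ) ≤ ov z u + hammingDist z g := by exact_mod_cast ov_le_dist g z u
    have h4 : (weight u : ℝ) ≤ 2 * ov g u := by exact_mod_cast h2
    linarith
  -- near `Err U`
  have h2 : ∀ z ∈ D, ∑ w ∈ univ.filter (fun w => bor z w ∉ Err U), mu q w ≤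
      Real.exp (-(κ ^ 2 * n)) := by
    intro z hz
    rw [hD, Finset.mem_filter] at hz
    obtain ⟨-, u, hu, h3⟩ := hz
    by_cases hzE : weight u ≤ 2 * ov z u
    · have : (univ.filter fun w => bor z w ∉ Err U) = ∅ := by
        rw [Finset.filter_eq_empty_iff]
        intro w _
        rw [not_not, mem_Err]
        refine ⟨u, hu, hzE.trans ?_⟩
        rw [ov_bor]
        omega
      rw [this, Finset.sum_empty]
      exact (Real.exp_pos _).le
    · refine (low hq0 hq1 (univ.filter fun i => u i = true ∧ z i = false) (κ * n) _ ?_).trans ?_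
      · intro w hw
        rw [Finset.mem_filter, mem_Err] at hw
        by_contra hcon
        push Not at hcon
        apply hw.2
        refine ⟨u, hu, ?_⟩
        rw [ov_bor]
        have : (weight u : ℝ) ≤ 2 * ((ov z u : ℝ) +
          ((univ.filter fun i => u i = true ∧ z i = false).filter fun i => w i = true).card) := by
          linarith
        exact_mod_cast this
      · apply Real.exp_le_exp.2
        have h4 : (weight u : ℝ) = ov z u + (univ.filter fun i => u i = true ∧ z i = false).card := by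
          exact_mod_cast weight_split z u
        have h5 : (2 * ov z u : ℝ) < weight u := by exact_mod_cast not_le.1 hzE
        have h6 := hU u hu
        have h7 : δ * n / 2 ≤ (univ.filter fun i => u i = true ∧ z i = false).card := by linarith
        have h8 : q * (δ * n / 2) / 2 ≤
            q * ((univ.filter fun i => u i = true ∧ z i = false).card : ℝ) / 2 := by
          have := mul_le_mul_of_nonneg_left h7 hq0
          linarith
        have h9 : q * (δ * n / 2) / 2 = 2 * (κ * n) := by rw [hκ]; ring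
        have h10 : Real.log 2 ≤ 1 := by
          have := Real.log_two_lt_d9
          linarith
        have h11 : 0 ≤ κ * n := mul_nonneg hκ0 hn
        have h12 : κ ^ 2 * n ≤ κ * n := by
          have := mul_le_mul_of_nonneg_right hκ1 h11
          nlinarith
        nlinarith [mul_le_mul_of_nonneg_left h10 h11]
  -- the coupling
  have h3 : ∑ z ∈ (Err U)ᶜ, mu ρ z = ∑ z, mu p z *
      ∑ w ∈ univ.filter (fun w => bor z w ∉ Err U), mu q w := by
    have e1 : ∑ z ∈ (Err U)ᶜ, mu ρ z = ∑ z, mu ρ z * (if z ∉ Err U then 1 else 0) := by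
      have : (Err U)ᶜ = univ.filter fun z => z ∉ Err U := by ext z; simp
      rw [this, Finset.sum_filter]
      refine Finset.sum_congr rfl fun z _ => ?_
      split_ifs <;> simp
    rw [e1, ← couple hρ n]
    refine Finset.sum_congr rfl fun z _ => ?_
    rw [Finset.sum_filter, Finset.mul_sum]
    refine Finset.sum_congr rfl fun w _ => ?_
    split_ifs <;> simp
  have h4 : ∀ z, ∑ w ∈ univ.filter (fun w => bor z w ∉ Err U), mu q w ≤ 1 := by
    intro z
    refine (Finset.sum_le_sum_of_subset_of_nonneg (Finset.subset_univ _)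
      fun w _ _ => mu_nonneg hq0 hq1 w).trans (le_of_eq (sum_mu q n))
  have h5 : ∑ z ∈ (Err U)ᶜ, mu ρ z ≤ ∑ z ∈ Dᶜ, mu p z + Real.exp (-(κ ^ 2 * n)) := by
    rw [h3, ← Finset.sum_add_sum_compl D, add_comm]
    refine add_le_add ?_ ?_
    · refine Finset.sum_le_sum fun z _ => ?_
      have := mul_le_mul_of_nonneg_left (h4 z) (mu_nonneg hp0 hp1 z)
      linarith
    · calc ∑ z ∈ D, mu p z * ∑ w ∈ univ.filter (fun w => bor z w ∉ Err U), mu q w
          ≤ ∑ z ∈ D, mu p z * Real.exp (-(κ ^ 2 * n)) :=
            Finset.sum_le_sum fun z hz => mul_le_mul_of_nonneg_left (h2 z hz)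
              (mu_nonneg hp0 hp1 z)
        _ = (∑ z ∈ D, mu p z) * Real.exp (-(κ ^ 2 * n)) := by rw [Finset.sum_mul]
        _ ≤ 1 * Real.exp (-(κ ^ 2 * n)) := by
            refine mul_le_mul_of_nonneg_right ?_ (Real.exp_pos _).le
            refine (Finset.sum_le_sum_of_subset_of_nonneg (Finset.subset_univ _)
              fun w _ _ => mu_nonneg hp0 hp1 w).trans (le_of_eq (sum_mu p n))
        _ = _ := one_mul _
  have h6 : 0 ≤ ∑ z ∈ Err U, mu p z := Finset.sum_nonneg fun z _ => mu_nonneg hp0 hp1 z
  have h7 : ∑ z ∈ Err U, mu p z ≤ 1 := (Finset.sum_le_sum_of_subset_of_nonneg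
    (Finset.subset_univ _) fun w _ _ => mu_nonneg hp0 hp1 w).trans (le_of_eq (sum_mu p n))
  calc _ ≤ (∑ z ∈ Err U, mu p z) * (∑ z ∈ Dᶜ, mu p z + Real.exp (-(κ ^ 2 * n))) :=
        mul_le_mul_of_nonneg_left h5 h6
    _ ≤ Real.exp (-(κ ^ 2 * n)) + 1 * Real.exp (-(κ ^ 2 * n)) := by
        rw [mul_add]
        exact add_le_add h1 (mul_le_mul_of_nonneg_right h7 (Real.exp_pos _).le)
    _ = _ := by ring

end Pool.Agent.H2x430
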