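import Pool.Agent.H2x430.Key

/-!
# H2x430: codes above capacity, and the Gilbert-Varshamov bound
-/

set_option autoImplicit false

namespace Pool.Agent.H2x430

open Finset Filter
open Pool.Agent.Results.MP_0430e4_lc.ConstantWeightCriterion (weight tr sum_prod pow_lower
  weight_tr tr_tr tr_inj H H_eq H_eq' H_cont two_rpow volume weight_le prod_ite_eq nbhd mem_nbhd
  IsCode replacement A exists_A A_pos)

/-- light words have small probability -/
theorem light {p κ : ℝ} (h0 : 0 ≤ p) (h1 : p ≤ 1) (hκ0 : 0 ≤ κ) (hκ1 : κ ≤ 1) {n : ℕ}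
    (B : Finset (Fin n → Bool)) (hB : ∀ w ∈ B, (weight w : ℝ) ≤ (p - κ) * n) :
    ∑ w ∈ B, mu p w ≤ Real.exp (-(κ ^ 2 / 2 * n)) := by
  classical
  have hn : (0 : ℝ) ≤ n := Nat.cast_nonneg n
  have e1 : ∑ w : Fin n → Bool, ∏ i, ((if w i = true then p else 1 - p) *
      (if w i = true then Real.exp (-κ) else 1)) = (1 - p * (1 - Real.exp (-κ))) ^ n := by
    have h := sum_prod (n := n) (fun _ b => (if b = true then p else 1 - p) *
      (if b = true then Real.exp (-κ) else 1))
    rw [h]
    simp
    ring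
  have hexp : 1 - κ ≤ Real.exp (-κ) := by
    have := Real.add_one_le_exp (-κ)
    linarith
  have hexp1 : Real.exp (-κ) ≤ 1 - κ + κ ^ 2 / 2 := by
    have := Real.exp_bound_div_one_sub_of_interval hκ0
    have h2 : Real.exp (-κ) ≤ 1 - κ + κ ^ 2 / 2 := by
      have h3 := Real.quadratic_le_exp_of_nonneg hκ0
      have h4 : Real.exp (-κ) = 1 / Real.exp κ := by rw [Real.exp_neg, one_div]
      rw [h4, div_le_iff₀ (Real.exp_pos _)]
      have h5 : 0 ≤ 1 - κ + κ ^ 2 / 2 := by nlinarith [sq_nonneg (κ - 1)]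
      have h6 := mul_le_mul_of_nonneg_left h3 h5
      nlinarith [sq_nonneg (κ ^ 2)]
    exact h2
  have e3 : (1 - p * (1 - Real.exp (-κ))) ^ n ≤ Real.exp (-(p * (κ - κ ^ 2 / 2) * n)) := by
    have h2 : 1 - p * (1 - Real.exp (-κ)) ≤ Real.exp (-(p * (κ - κ ^ 2 / 2))) := by
      have h3 := Real.add_one_le_exp (-(p * (κ - κ ^ 2 / 2)))
      have h4 : κ - κ ^ 2 / 2 ≤ 1 - Real.exp (-κ) := by linarith
      have := mul_le_mul_of_nonneg_left h4 h0
      linarith
    have h3 : 0 ≤ 1 - p * (1 - Real.exp (-κ)) := by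
      have h4 : 0 < Real.exp (-κ) := Real.exp_pos _
      have h5 : Real.exp (-κ) ≤ 1 := by
        rw [Real.exp_le_one_iff]
        linarith
      nlinarith
    calc _ ≤ Real.exp (-(p * (κ - κ ^ 2 / 2))) ^ n := pow_le_pow_left₀ h3 h2 _
      _ = _ := by rw [← Real.exp_nat_mul]; congr 1; ring
  have e4 : ∀ w ∈ B, Real.exp (-(κ * ((p - κ) * n))) * mu p w ≤
      ∏ i, ((if w i = true then p else 1 - p) * (if w i = true then Real.exp (-κ) else 1)) := by
    intro w hw
    rw [Finset.prod_mul_distrib, mul_comm]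
    refine mul_le_mul_of_nonneg_left ?_ (mu_nonneg h0 h1 w)
    rw [prod_ite_eq (fun i => w i = true), one_pow, mul_one]
    have e6 : Real.exp (-κ) ^ (univ.filter fun i => w i = true).card =
        Real.exp (-(κ * (weight w : ℝ))) := by
      rw [← Real.exp_nat_mul]
      congr 1
      unfold weight
      ring
    rw [e6]
    apply Real.exp_le_exp.2
    have := mul_le_mul_of_nonneg_left (hB w hw) hκ0
    linarith
  have e5 : Real.exp (-(κ * ((p - κ) * n))) * ∑ w ∈ B, mu p w ≤
      Real.exp (-(p * (κ - κ ^ 2 / 2) * n)) := by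
    rw [Finset.mul_sum]
    refine (Finset.sum_le_sum e4).trans (le_trans ?_ (e1.le.trans e3))
    refine Finset.sum_le_sum_of_subset_of_nonneg (Finset.subset_univ _) fun w _ _ =>
      Finset.prod_nonneg fun i _ => ?_
    have := Real.exp_pos (-κ)
    split_ifs
    · positivity
    · linarith
  have e6 : ∑ w ∈ B, mu p w ≤ Real.exp (-(p * (κ - κ ^ 2 / 2) * n)) /
      Real.exp (-(κ * ((p - κ) * n))) := by
    rw [le_div_iff₀ (Real.exp_pos _), mul_comm]
    exact e5
  refine e6.trans ?_
  rw [← Real.exp_sub]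
  apply Real.exp_le_exp.2
  have h7 : p * κ ^ 2 * n ≤ κ ^ 2 * n := by
    have := mul_le_mul_of_nonneg_right h1 (mul_nonneg (sq_nonneg κ) hn)
    linarith
  nlinarith

/-- the probability of correct decoding -/
lemma success {n : ℕ} {p κ : ℝ} (hp0 : 0 < p) (hp : p < 1 / 2) (hκ0 : 0 ≤ κ) (hκ1 : κ ≤ 1)
    {C : Finset (Fin n → Bool)} (hne : C.Nonempty) (D : (Fin n → Bool) → (Fin n → Bool)) :
    1 - errorProb p C D ≤ Real.exp (-(κ ^ 2 / 2 * n)) +
      2 ^ n / C.card * Real.exp (-(Real.binEntropy p * n) +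
        κ * (Real.log (1 - p) - Real.log p) * n) := by
  classical
  have hn : (0 : ℝ) ≤ n := Nat.cast_nonneg n
  have hp1 : p ≤ 1 := by linarith
  have hC0 : (0 : ℝ) < C.card := by exact_mod_cast hne.card_pos
  have hL : 0 ≤ Real.log (1 - p) - Real.log p :=
    sub_nonneg.2 (Real.log_le_log hp0 (by linarith))
  -- the words decoded correctly
  have h1 : (1 - errorProb p C D) * C.card = ∑ x ∈ C, ∑ y ∈ univ.filter (fun y => D y = x),
      mu p (tr x y) := by
    have h2 : ∀ x ∈ C, ∑ y ∈ univ.filter (fun y => D y = x), mu p (tr x y) +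
        ∑ y ∈ univ.filter (fun y => D y ≠ x), p ^ hammingDist x y * (1 - p) ^ (n - hammingDist x y)
        = 1 := by
      intro x _
      have e1 : ∑ y ∈ univ.filter (fun y => D y ≠ x),
          p ^ hammingDist x y * (1 - p) ^ (n - hammingDist x y) =
          ∑ y ∈ univ.filter (fun y => ¬ D y = x), mu p (tr x y) :=
        Finset.sum_congr rfl fun y _ => (mu_tr p x y).symm
      rw [e1, Finset.sum_filter_add_sum_filter_not]
      have e2 : ∑ y : Fin n → Bool, mu p (tr x y) = ∑ z ∈ (univ : Finset (Fin n → Bool)).image (tr x),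
          mu p z := by
        rw [Finset.sum_image fun a _ b _ h => tr_inj x h]
      rw [e2]
      have e3 : (univ : Finset (Fin n → Bool)).image (tr x) = univ := by
        ext z
        simp only [Finset.mem_image, Finset.mem_univ, true_and, iff_true]
        exact ⟨tr x z, tr_tr x z⟩
      rw [e3, sum_mu]
    have h3 := Finset.sum_congr rfl h2
    rw [Finset.sum_add_distrib, Finset.sum_const, nsmul_eq_mul, mul_one] at h3
    unfold errorProb
    rw [sub_mul, one_mul, div_mul_cancel₀ _ hC0.ne']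
    linarith
  -- splitting
  have h2 : ∀ x ∈ C, ∑ y ∈ univ.filter (fun y => D y = x), mu p (tr x y) ≤
      Real.exp (-(κ ^ 2 / 2 * n)) + (univ.filter (fun y => D y = x)).card *
        Real.exp (-(Real.binEntropy p * n) + κ * (Real.log (1 - p) - Real.log p) * n) := by
    intro x _
    rw [← Finset.sum_filter_add_sum_filter_not (univ.filter fun y => D y = x)
      (fun y => (hammingDist x y : ℝ) ≤ (p - κ) * n)]
    refine add_le_add ?_ ?_
    · have e1 : ∑ y ∈ (univ.filter fun y => D y = x).filter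
          (fun y => (hammingDist x y : ℝ) ≤ (p - κ) * n), mu p (tr x y) =
          ∑ z ∈ ((univ.filter fun y => D y = x).filter
          (fun y => (hammingDist x y : ℝ) ≤ (p - κ) * n)).image (tr x), mu p z := by
        rw [Finset.sum_image fun a _ b _ h => tr_inj x h]
      rw [e1]
      refine light hp0.le hp1 hκ0 hκ1 _ ?_
      intro w hw
      obtain ⟨y, hy, rfl⟩ := Finset.mem_image.1 hw
      rw [weight_tr]
      exact (Finset.mem_filter.1 hy).2
    · have e1 : ∀ y ∈ (univ.filter fun y => D y = x).filter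
          (fun y => ¬ (hammingDist x y : ℝ) ≤ (p - κ) * n), mu p (tr x y) ≤
          Real.exp (-(Real.binEntropy p * n) + κ * (Real.log (1 - p) - Real.log p) * n) := by
        intro y hy
        have hy' := (Finset.mem_filter.1 hy).2
        push Not at hy'
        have hd : hammingDist x y ≤ n := by
          have := hammingDist_le_card_fintype (x := x) (y := y)
          simpa using this
        rw [mu_tr]
        have e2 : p ^ hammingDist x y * (1 - p) ^ (n - hammingDist x y) =
            Real.exp (hammingDist x y * Real.log p + ((n : ℝ) - hammingDist x y) * Real.log (1 - p)) := by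
          rw [Real.exp_add, mul_comm (hammingDist x y : ℝ), Real.exp_mul, Real.exp_log hp0,
            Real.rpow_natCast, mul_comm ((n : ℝ) - hammingDist x y), Real.exp_mul,
            Real.exp_log (by linarith), ← Nat.cast_sub hd, Real.rpow_natCast]
        rw [e2]
        apply Real.exp_le_exp.2
        unfold Real.binEntropy
        rw [Real.log_inv, Real.log_inv]
        have := mul_le_mul_of_nonneg_right hy'.le hL
        nlinarith
      refine (Finset.sum_le_sum e1).trans ?_
      rw [Finset.sum_const, nsmul_eq_mul]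
      refine mul_le_mul_of_nonneg_right ?_ (Real.exp_pos _).le
      exact_mod_cast Finset.card_filter_le _ _
  have h3 : ∑ x ∈ C, ((univ.filter (fun y : Fin n → Bool => D y = x)).card : ℝ) ≤ 2 ^ n := by
    have e1 : ∑ x ∈ C, (univ.filter (fun y : Fin n → Bool => D y = x)).card ≤ 2 ^ n := by
      rw [← Finset.card_biUnion]
      · refine (Finset.card_le_univ _).trans ?_
        simp
      · intro a _ b _ hab
        rw [Function.onFun, Finset.disjoint_left]
        intro y hy hy2
        exact hab ((Finset.mem_filter.1 hy).2.symm.trans (Finset.mem_filter.1 hy2).2)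
    exact_mod_cast e1
  have h4 : (1 - errorProb p C D) * C.card ≤ C.card * Real.exp (-(κ ^ 2 / 2 * n)) +
      2 ^ n * Real.exp (-(Real.binEntropy p * n) + κ * (Real.log (1 - p) - Real.log p) * n) := by
    rw [h1]
    refine (Finset.sum_le_sum h2).trans ?_
    rw [Finset.sum_add_distrib, Finset.sum_const, nsmul_eq_mul, ← Finset.sum_mul]
    have := mul_le_mul_of_nonneg_right h3 (Real.exp_pos
      (-(Real.binEntropy p * n) + κ * (Real.log (1 - p) - Real.log p) * n)).le
    linarith
  have h5 : 1 - errorProb p C D ≤ (C.card * Real.exp (-(κ ^ 2 / 2 * n)) +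
      2 ^ n * Real.exp (-(Real.binEntropy p * n) + κ * (Real.log (1 - p) - Real.log p) * n)) /
      C.card := by
    rw [le_div_iff₀ hC0]
    exact h4
  refine h5.trans (le_of_eq ?_)
  field_simp

/-- the Gilbert-Varshamov bound -/
lemma gv {δ : ℝ} (h0 : 0 < δ) (h1 : δ < 1 / 2) {n : ℕ} (hn : 1 ≤ n) :
    (2 : ℝ) ^ ((1 - H δ) * n) ≤ A n ⌈δ * n⌉₊ := by
  classical
  have hn0 : (0 : ℝ) < n := by exact_mod_cast hn
  have hd : 1 ≤ ⌈δ * n⌉₊ := Nat.one_le_iff_ne_zero.2 (Nat.ceil_pos.2 (by positivity)).ne'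
  have h2 := replacement hd ({fun _ => false} : Finset (Fin n → Bool)) (by
    intro x hx y hy hxy
    rw [Finset.mem_singleton] at hx hy
    exact absurd (hx.trans hy.symm) hxy)
  rw [Finset.card_singleton, one_mul] at h2
  have h3 : (nbhd ⌈δ * n⌉₊ ({fun _ => false} : Finset (Fin n → Bool))).card ≤
      (univ.filter fun v : Fin n → Bool => (weight v : ℝ) ≤ δ * n).card := by
    refine Finset.card_le_card fun v hv => ?_
    obtain ⟨x, hx, hxv⟩ := mem_nbhd.1 hv
    rw [Finset.mem_singleton] at hx
    subst hx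
    rw [Finset.mem_filter]
    refine ⟨Finset.mem_univ _, ?_⟩
    have e1 : weight v = hammingDist (fun _ => false) v := by
      rw [← weight_tr]
      congr 1
      funext i
      simp [tr]
    rw [e1]
    exact (Nat.lt_ceil.1 hxv).le
  have h4 := volume h0 h1.le n
  have h5 : (2 : ℝ) ^ n ≤ A n ⌈δ * n⌉₊ * (2 : ℝ) ^ (H δ * n) := by
    have e1 : (2 : ℝ) ^ n ≤ A n ⌈δ * n⌉₊ *
        ((nbhd ⌈δ * n⌉₊ ({fun _ => false} : Finset (Fin n → Bool))).card : ℝ) := by
      exact_mod_cast h2
    refine e1.trans (mul_le_mul_of_nonneg_left (le_trans ?_ h4) (Nat.cast_nonneg _))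
    exact_mod_cast h3
  have h6 : (2 : ℝ) ^ ((1 - H δ) * n) * (2 : ℝ) ^ (H δ * n) = 2 ^ n := by
    rw [← Real.rpow_add (by norm_num), ← Real.rpow_natCast]
    congr 1
    ring
  rw [← h6] at h5
  exact le_of_mul_le_mul_right h5 (by positivity)

end Pool.Agent.H2x430
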