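import Pool.Agent.H2x430.Conv

/-!
# H2x430: the criterion, in the notation of the library
-/

set_option autoImplicit false

namespace Pool.Agent.H2x430

open Finset Filter
open Pool.Agent.Results.MP_0430e4_lc.ConstantWeightCriterion (H H_eq H_eq' H_cont two_rpow
  IsCode A exists_A A_pos R Rlow rateA bdd_le bdd_ge)

/-- every nonempty code of length `n` and minimum distance at least `d` has a decoder with error
probability at most `ε` -/
def Corrects (p : ℝ) (n d : ℕ) (ε : ℝ) : Prop :=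
  ∀ C : Finset (Fin n → Bool), C.Nonempty → IsCode d C →
    ∃ D : (Fin n → Bool) → (Fin n → Bool), errorProb p C D ≤ ε

lemma Corrects.mono {p : ℝ} {n d : ℕ} {ε ε' : ℝ} (h : Corrects p n d ε) (he : ε ≤ ε') :
    Corrects p n d ε' := fun C h1 h2 => by
  obtain ⟨D, hD⟩ := h C h1 h2
  exact ⟨D, hD.trans he⟩

/-- a best code above capacity is not decodable -/
lemma above_capacity {δ p s η : ℝ} (hp0 : 0 < p) (hp : p < 1 / 2) (hs : 0 < s) (hη : η < 1) :
    ∀ᶠ n : ℕ in atTop, 1 - H p + 2 * s < Real.logb 2 (A n ⌈δ * n⌉₊) / n →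
      ¬ Corrects p n ⌈δ * n⌉₊ η := by
  have hlog : 0 < Real.log 2 := Real.log_pos (by norm_num)
  have hL : 0 ≤ Real.log (1 - p) - Real.log p :=
    sub_nonneg.2 (Real.log_le_log hp0 (by linarith))
  set L := Real.log (1 - p) - Real.log p with hLdef
  obtain ⟨κ, hκ0, hκ1, hκL⟩ : ∃ κ : ℝ, 0 < κ ∧ κ ≤ 1 ∧ κ * L ≤ s * Real.log 2 := by
    refine ⟨min 1 (s * Real.log 2 / (L + 1)), ?_, min_le_left _ _, ?_⟩
    · exact lt_min one_pos (by positivity)
    · have h1 : min 1 (s * Real.log 2 / (L + 1)) * L ≤ s * Real.log 2 / (L + 1) * L :=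
        mul_le_mul_of_nonneg_right (min_le_right _ _) hL
      have h2 : s * Real.log 2 / (L + 1) * L ≤ s * Real.log 2 := by
        rw [div_mul_eq_mul_div, div_le_iff₀ (by linarith)]
        have : 0 < s * Real.log 2 := by positivity
        nlinarith
      exact h1.trans h2
  have t1 : Tendsto (fun n : ℕ => Real.exp (-(κ ^ 2 / 2 * n)) + Real.exp (-(s * Real.log 2 * n)))
      atTop (nhds (0 + 0)) := by
    refine Tendsto.add ?_ ?_
    · refine Real.tendsto_exp_neg_atTop_nhds_zero.comp ?_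
      exact Tendsto.const_mul_atTop (by positivity) tendsto_natCast_atTop_atTop
    · refine Real.tendsto_exp_neg_atTop_nhds_zero.comp ?_
      exact Tendsto.const_mul_atTop (by positivity) tendsto_natCast_atTop_atTop
  rw [add_zero] at t1
  filter_upwards [t1.eventually (gt_mem_nhds (show (0 : ℝ) < 1 - η by linarith)),
    eventually_ge_atTop 1] with n hn hn1 hlt hcor
  have hn0 : (0 : ℝ) < n := by exact_mod_cast hn1
  obtain ⟨C, hC, hcard⟩ := exists_A n ⌈δ * n⌉₊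
  have hA := A_pos n ⌈δ * n⌉₊
  have hne : C.Nonempty := by
    rw [← Finset.card_pos, hcard]
    exact hA
  obtain ⟨D, hD⟩ := hcor C hne hC
  have h1 := success hp0 hp hκ0.le hκ1 hne D
  rw [lt_div_iff₀ hn0] at hlt
  have hA0 : (0 : ℝ) < A n ⌈δ * n⌉₊ := by exact_mod_cast hA
  have h2 : (2 : ℝ) ^ ((1 - H p + 2 * s) * n) ≤ A n ⌈δ * n⌉₊ :=
    ((Real.lt_logb_iff_rpow_lt (by norm_num) hA0).1 hlt).le
  have h3 : (2 : ℝ) ^ n / C.card * Real.exp (-(Real.binEntropy p * n) + κ * L * n) ≤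
      Real.exp (-(s * Real.log 2 * n)) := by
    rw [hcard]
    have e1 : (2 : ℝ) ^ n / A n ⌈δ * n⌉₊ ≤ (2 : ℝ) ^ n / (2 : ℝ) ^ ((1 - H p + 2 * s) * n) :=
      div_le_div_of_nonneg_left (by positivity) (by positivity) h2
    have e2 : (2 : ℝ) ^ n / (2 : ℝ) ^ ((1 - H p + 2 * s) * n) =
        Real.exp (Real.log 2 * ((H p - 2 * s) * n)) := by
      rw [← Real.rpow_natCast, ← Real.rpow_sub (by norm_num), two_rpow]
      congr 2
      ring
    refine (mul_le_mul_of_nonneg_right (e1.trans e2.le) (Real.exp_pos _).le).trans ?_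
    rw [← Real.exp_add]
    apply Real.exp_le_exp.2
    have e3 := H_eq p
    have e4 := mul_le_mul_of_nonneg_right hκL hn0.le
    rw [← e3]
    nlinarith
  linarith

/-- failing codes push the rate above the Gilbert-Varshamov bound -/
lemma failing {δ p : ℝ} (hp0 : 0 < p) (hpδ : p < δ) (hδ : δ < 1 / 2) :
    ∃ c g : ℝ, 0 < c ∧ 0 < g ∧ ∀ᶠ n : ℕ in atTop,
      ¬ Corrects p n ⌈δ * n⌉₊ ((2 : ℝ) ^ (-(c * n))) →
      1 - H δ + g ≤ Real.logb 2 (A n ⌈δ * n⌉₊) / n := by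
  obtain ⟨c, g, hc, hg, h⟩ := key hp0 hpδ hδ
  refine ⟨c, g, hc, hg, ?_⟩
  filter_upwards [h, eventually_ge_atTop 1] with n hn hn1 hcor
  have hn0 : (0 : ℝ) < n := by exact_mod_cast hn1
  unfold Corrects at hcor
  push Not at hcor
  obtain ⟨C, hne, hC, hD⟩ := hcor
  have h1 := hn C hne hC hD
  rw [le_div_iff₀ hn0]
  have hA0 : (0 : ℝ) < A n ⌈δ * n⌉₊ := by exact_mod_cast A_pos n ⌈δ * n⌉₊
  exact (Real.le_logb_iff_rpow_le (by norm_num) hA0).2 h1

lemma gv_rate {δ : ℝ} (h0 : 0 < δ) (h1 : δ < 1 / 2) :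
    ∀ᶠ n : ℕ in atTop, 1 - H δ ≤ Real.logb 2 (A n ⌈δ * n⌉₊) / n := by
  filter_upwards [eventually_ge_atTop 1] with n hn1
  have hn0 : (0 : ℝ) < n := by exact_mod_cast hn1
  rw [le_div_iff₀ hn0]
  have hA0 : (0 : ℝ) < A n ⌈δ * n⌉₊ := by exact_mod_cast A_pos n ⌈δ * n⌉₊
  exact (Real.le_logb_iff_rpow_le (by norm_num) hA0).2 (gv h0 h1 hn1)

lemma small {c : ℝ} (hc : 0 < c) : ∀ᶠ n : ℕ in atTop, (2 : ℝ) ^ (-(c * n)) ≤ 1 / 2 := by
  have t1 : Tendsto (fun n : ℕ => Real.exp (-(Real.log 2 * c * n))) atTop (nhds 0) := by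
    refine Real.tendsto_exp_neg_atTop_nhds_zero.comp ?_
    have hlog : 0 < Real.log 2 := Real.log_pos (by norm_num)
    exact Tendsto.const_mul_atTop (by positivity) tendsto_natCast_atTop_atTop
  filter_upwards [t1.eventually (gt_mem_nhds (show (0 : ℝ) < 1 / 2 by norm_num))] with n hn
  rw [two_rpow]
  refine le_trans (le_of_eq ?_) hn.le
  congr 1
  ring

/-- choosing `p` -/
lemma choose_p {δ r : ℝ} (h0 : 0 < δ) (hr : 1 - H δ < r) :
    ∃ p s : ℝ, 0 < p ∧ p < δ ∧ 0 < s ∧ 1 - H p + 2 * s < r := by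
  have h2 : ∀ᶠ t in nhds δ, 1 - r < H t :=
    (H_cont.tendsto _).eventually (lt_mem_nhds (by linarith))
  obtain ⟨ε, hε, hball⟩ := Metric.eventually_nhds_iff.1 h2
  refine ⟨max (δ / 2) (δ - ε / 2), (H (max (δ / 2) (δ - ε / 2)) - (1 - r)) / 4, ?_, ?_, ?_, ?_⟩
  · exact lt_of_lt_of_le (by linarith) (le_max_left _ _)
  · exact max_lt (by linarith) (by linarith)
  all_goals
    have h5 : 1 - r < H (max (δ / 2) (δ - ε / 2)) := by
      apply hball
      have h6 : max (δ / 2) (δ - ε / 2) < δ := max_lt (by linarith) (by linarith)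
      have h7 := le_max_right (δ / 2) (δ - ε / 2)
      rw [Real.dist_eq, abs_lt]
      constructor <;> linarith
    linarith

theorem upper {δ : ℝ} (h0 : 0 < δ) (h1 : δ < 1 / 2) :
    [R δ = 1 - H δ,
      ∀ p : ℝ, 0 < p → p < δ → ∃ c : ℝ, 0 < c ∧
        ∀ᶠ n : ℕ in atTop, Corrects p n ⌈δ * n⌉₊ ((2 : ℝ) ^ (-(c * n))),
      ∀ p : ℝ, 0 < p → p < δ → ∃ η : ℝ, η < 1 ∧
        ∀ᶠ n : ℕ in atTop, Corrects p n ⌈δ * n⌉₊ η].TFAE := by
  have hb1 := bdd_le (f := fun n : ℕ => Real.logb 2 (A n ⌈δ * n⌉₊) / n) (rateA δ)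
  have hb2 := bdd_ge (f := fun n : ℕ => Real.logb 2 (A n ⌈δ * n⌉₊) / n) (rateA δ)
  tfae_have 1 → 2 := by
    intro hR p hp0 hp
    obtain ⟨c, g, hc, hg, h⟩ := failing hp0 hp h1
    refine ⟨c, hc, ?_⟩
    by_contra hcon
    rw [Filter.not_eventually] at hcon
    have h2 : ∃ᶠ n : ℕ in atTop, 1 - H δ + g ≤ Real.logb 2 (A n ⌈δ * n⌉₊) / n :=
      (hcon.and_eventually h).mono fun n hn => hn.2 hn.1
    have h3 : 1 - H δ + g ≤ R δ := le_limsup_of_frequently_le h2 hb1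
    linarith
  tfae_have 2 → 3 := by
    intro h p hp0 hp
    obtain ⟨c, hc, h2⟩ := h p hp0 hp
    refine ⟨1 / 2, by norm_num, ?_⟩
    filter_upwards [h2, small hc] with n hn hs
    exact hn.mono hs
  tfae_have 3 → 1 := by
    intro h
    have hge : 1 - H δ ≤ R δ :=
      le_limsup_of_frequently_le (gv_rate h0 h1).frequently hb1
    by_contra hne
    have hlt : 1 - H δ < R δ := lt_of_le_of_ne hge (Ne.symm hne)
    obtain ⟨p, s, hp0, hp, hs, hps⟩ := choose_p h0 hlt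
    obtain ⟨η, hη, hev⟩ := h p hp0 hp
    have h2 : ∃ᶠ n : ℕ in atTop, 1 - H p + 2 * s < Real.logb 2 (A n ⌈δ * n⌉₊) / n :=
      frequently_lt_of_lt_limsup hb2.isCoboundedUnder_le hps
    have h3 := above_capacity (δ := δ) hp0 (hp.trans h1) hs hη
    obtain ⟨n, hn1, hn2, hn3⟩ := (h2.and_eventually (h3.and hev)).exists
    exact hn2 hn1 hn3
  tfae_finish

theorem lower {δ : ℝ} (h0 : 0 < δ) (h1 : δ < 1 / 2) :
    [Rlow δ = 1 - H δ,
      ∀ p : ℝ, 0 < p → p < δ → ∃ c : ℝ, 0 < c ∧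
        ∃ᶠ n : ℕ in atTop, Corrects p n ⌈δ * n⌉₊ ((2 : ℝ) ^ (-(c * n))),
      ∀ p : ℝ, 0 < p → p < δ → ∃ η : ℝ, η < 1 ∧
        ∃ᶠ n : ℕ in atTop, Corrects p n ⌈δ * n⌉₊ η].TFAE := by
  have hb1 := bdd_le (f := fun n : ℕ => Real.logb 2 (A n ⌈δ * n⌉₊) / n) (rateA δ)
  have hb2 := bdd_ge (f := fun n : ℕ => Real.logb 2 (A n ⌈δ * n⌉₊) / n) (rateA δ)
  tfae_have 1 → 2 := by
    intro hR p hp0 hp
    obtain ⟨c, g, hc, hg, h⟩ := failing hp0 hp h1
    refine ⟨c, hc, ?_⟩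
    by_contra hcon
    rw [Filter.not_frequently] at hcon
    have h2 : ∀ᶠ n : ℕ in atTop, 1 - H δ + g ≤ Real.logb 2 (A n ⌈δ * n⌉₊) / n :=
      (hcon.and h).mono fun n hn => hn.2 hn.1
    have h3 : 1 - H δ + g ≤ Rlow δ := le_liminf_of_le hb1.isCoboundedUnder_ge h2
    linarith
  tfae_have 2 → 3 := by
    intro h p hp0 hp
    obtain ⟨c, hc, h2⟩ := h p hp0 hp
    refine ⟨1 / 2, by norm_num, ?_⟩
    exact (h2.and_eventually (small hc)).mono fun n hn => hn.1.mono hn.2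
  tfae_have 3 → 1 := by
    intro h
    have hge : 1 - H δ ≤ Rlow δ :=
      le_liminf_of_le hb1.isCoboundedUnder_ge (gv_rate h0 h1)
    by_contra hne
    have hlt : 1 - H δ < Rlow δ := lt_of_le_of_ne hge (Ne.symm hne)
    obtain ⟨p, s, hp0, hp, hs, hps⟩ := choose_p h0 hlt
    obtain ⟨η, hη, hfr⟩ := h p hp0 hp
    have h2 : ∀ᶠ n : ℕ in atTop, 1 - H p + 2 * s < Real.logb 2 (A n ⌈δ * n⌉₊) / n :=
      eventually_lt_of_lt_liminf hps hb2
    have h3 := above_capacity (δ := δ) hp0 (hp.trans h1) hs hη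
    obtain ⟨n, hn1, hn2, hn3⟩ := (hfr.and_eventually (h3.and h2)).exists
    exact hn2 hn3 hn1
  tfae_finish

end Pool.Agent.H2x430
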