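import Pool.Agent.H2x430.Layer

/-!
# H2x430: the layers of the words with frequent decoding errors decay
-/

set_option autoImplicit false

namespace Pool.Agent.H2x430

open Finset
open Pool.Agent.Results.MP_0430e4_lc.ConstantWeightCriterion (weight tr sum_prod pow_lower
  weight_tr tr_tr H H_eq two_rpow volume weight_le prod_ite_eq)

lemma gibbs {x y : ℝ} (hx0 : 0 < x) (hx1 : x < 1) (hy0 : 0 < y) (hy1 : y < 1) :
    Real.binEntropy x ≤ Real.binEntropy y + (y - x) * (Real.log y - Real.log (1 - y)) := by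
  unfold Real.binEntropy
  rw [Real.log_inv, Real.log_inv, Real.log_inv, Real.log_inv]
  have h1 : Real.log (y / x) ≤ y / x - 1 := Real.log_le_sub_one_of_pos (by positivity)
  have h2 : Real.log ((1 - y) / (1 - x)) ≤ (1 - y) / (1 - x) - 1 :=
    Real.log_le_sub_one_of_pos (div_pos (by linarith) (by linarith))
  rw [Real.log_div hy0.ne' hx0.ne'] at h1
  rw [Real.log_div (by linarith) (by linarith)] at h2
  have h3 := mul_le_mul_of_nonneg_left h1 hx0.le
  have h4 := mul_le_mul_of_nonneg_left h2 (by linarith : 0 ≤ 1 - x)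
  have h5 : x * (y / x - 1) = y - x := by field_simp
  have h6 : (1 - x) * ((1 - y) / (1 - x) - 1) = x - y := by
    have : 1 - x ≠ 0 := by linarith
    field_simp
    ring
  rw [h5] at h3
  rw [h6] at h4
  nlinarith

/-- the volume of the sphere, up to a small factor -/
noncomputable def bb (n r : ℕ) : ℝ := (2 : ℝ) ^ (H ((r : ℝ) / n) * n)

lemma bb_pos (n r : ℕ) : 0 < bb n r := by unfold bb; positivity

lemma bb_eq (n r : ℕ) : bb n r = Real.exp (Real.binEntropy ((r : ℝ) / n) * n) := by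
  unfold bb
  rw [two_rpow]
  congr 1
  rw [← H_eq]; ring

lemma bb_step {n r : ℕ} (hr : 1 ≤ r) (hrn : r + 1 < n) :
    bb n r * ((n : ℝ) - r - 1) ≤ bb n (r + 1) * (r + 1) := by
  have hn : (0 : ℝ) < n := by exact_mod_cast (by omega : 0 < n)
  have hr0 : (0 : ℝ) < r := by exact_mod_cast hr
  have hrn' : (r : ℝ) + 1 < n := by exact_mod_cast hrn
  have hg := gibbs (x := (r : ℝ) / n) (y := ((r + 1 : ℕ) : ℝ) / n) (by positivity)
    (by rw [div_lt_one hn]; linarith) (by positivity) (by rw [div_lt_one hn]; push_cast; linarith)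
  have e1 : Real.log (((r + 1 : ℕ) : ℝ) / n) - Real.log (1 - ((r + 1 : ℕ) : ℝ) / n) =
      Real.log (r + 1) - Real.log (n - r - 1) := by
    have : 1 - ((r + 1 : ℕ) : ℝ) / n = (n - r - 1) / n := by
      push_cast; field_simp; ring
    rw [this, Real.log_div (by positivity) hn.ne', Real.log_div (by linarith) hn.ne']
    push_cast; ring
  rw [e1] at hg
  have h2 := mul_le_mul_of_nonneg_right hg hn.le
  have e2 : (Real.binEntropy (((r + 1 : ℕ) : ℝ) / n) + (((r + 1 : ℕ) : ℝ) / n - (r : ℝ) / n) *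
      (Real.log (r + 1) - Real.log (n - r - 1))) * n = Real.binEntropy (((r + 1 : ℕ) : ℝ) / n) * n +
      (Real.log (r + 1) - Real.log (n - r - 1)) := by
    push_cast; field_simp; ring
  rw [e2] at h2
  have h3 := Real.exp_le_exp.2 h2
  rw [Real.exp_add, Real.exp_sub, Real.exp_log (by linarith), Real.exp_log (by linarith),
    ← bb_eq, ← bb_eq] at h3
  rw [← mul_div_assoc, le_div_iff₀ (by linarith)] at h3
  exact h3

/-- the words of one weight with small error set -/
lemma slice {n r : ℕ} (hr : 1 ≤ r) (hrn : 2 * r ≤ n) (E : Finset (Fin n → Bool)) :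
    ((univ.filter fun z : Fin n → Bool => weight z = r ∧ z ∉ E).card : ℝ) ≤
      bb n r * ∑ z ∈ Eᶜ, mu ((r : ℝ) / n) z := by
  classical
  have hn : (0 : ℝ) < n := by exact_mod_cast (by omega : 0 < n)
  have hr0 : (0 : ℝ) < r := by exact_mod_cast hr
  have hrn' : 2 * (r : ℝ) ≤ n := by exact_mod_cast hrn
  have hp0 : 0 < (r : ℝ) / n := by positivity
  have hp : (r : ℝ) / n ≤ 1 / 2 := by rw [div_le_iff₀ hn]; linarith
  have h1 : ∀ z ∈ univ.filter (fun z : Fin n → Bool => weight z = r ∧ z ∉ E),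
      (bb n r)⁻¹ ≤ mu ((r : ℝ) / n) z := by
    intro z hz
    have hz' := (Finset.mem_filter.1 hz).2.1
    unfold mu
    rw [prod_ite_eq (fun i => z i = true)]
    have h2 : (univ.filter fun i => z i = true).card = r := hz'
    rw [h2]
    refine le_trans (le_of_eq ?_) (pow_lower hp0 hp (by omega : r ≤ n) ?_)
    · unfold bb
      rw [Real.rpow_neg (by norm_num)]
    · rw [div_mul_cancel₀ _ hn.ne']
  have h2 : ((univ.filter fun z : Fin n → Bool => weight z = r ∧ z ∉ E).card : ℝ) * (bb n r)⁻¹ ≤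
      ∑ z ∈ Eᶜ, mu ((r : ℝ) / n) z := by
    rw [← nsmul_eq_mul, ← Finset.sum_const]
    refine (Finset.sum_le_sum h1).trans ?_
    refine Finset.sum_le_sum_of_subset_of_nonneg ?_ fun z _ _ =>
      mu_nonneg hp0.le (by linarith) z
    intro z hz
    rw [Finset.mem_compl]
    exact (Finset.mem_filter.1 hz).2.2
  have hb := bb_pos n r
  rw [← div_eq_mul_inv, div_le_iff₀ hb] at h2
  linarith

/-- the first layer -/
lemma lay_first {n r : ℕ} (hr : 1 ≤ r) (hrn : 2 * r ≤ n) (C I : Finset (Fin n → Bool)) :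
    ((Lay C I r).card : ℝ) ≤ I.card * bb n r := by
  classical
  have hn : (0 : ℝ) < n := by exact_mod_cast (by omega : 0 < n)
  have hr0 : (0 : ℝ) < r := by exact_mod_cast hr
  have hrn' : 2 * (r : ℝ) ≤ n := by exact_mod_cast hrn
  have hp0 : 0 < (r : ℝ) / n := by positivity
  have hp : (r : ℝ) / n ≤ 1 / 2 := by rw [div_le_iff₀ hn]; linarith
  have hsub : Lay C I r ⊆ I.biUnion fun x =>
      (univ.filter fun z : Fin n → Bool => (weight z : ℝ) ≤ (r : ℝ) / n * n).image (tr x) := by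
    intro y hy
    obtain ⟨-, ⟨x, hx, hxy⟩, -⟩ := Finset.mem_filter.1 hy
    rw [Finset.mem_biUnion]
    refine ⟨x, hx, Finset.mem_image.2 ⟨tr x y, ?_, tr_tr x y⟩⟩
    rw [Finset.mem_filter]
    refine ⟨Finset.mem_univ _, ?_⟩
    rw [weight_tr, hxy, div_mul_cancel₀ _ hn.ne']
  have h1 := (Finset.card_le_card hsub).trans Finset.card_biUnion_le
  have h2 : ((Lay C I r).card : ℝ) ≤ ∑ x ∈ I, (((univ.filter fun z : Fin n → Bool =>
      (weight z : ℝ) ≤ (r : ℝ) / n * n).image (tr x)).card : ℝ) := by exact_mod_cast h1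
  refine h2.trans ?_
  rw [← nsmul_eq_mul, ← Finset.sum_const]
  refine Finset.sum_le_sum fun x hx => ?_
  refine le_trans ?_ (volume hp0 hp n)
  exact_mod_cast Finset.card_image_le

/-- **Decay of the layers.** -/
theorem decay {δ e : ℝ} (hδ0 : 0 < δ) (hδ : δ ≤ 1 / 2) (he : 0 ≤ e) {n r₀ : ℕ}
    (hr₀ : 1 ≤ r₀) (hnδ : 8 ≤ δ * n) {C I : Finset (Fin n → Bool)} (hIC : I ⊆ C)
    (hC : ∀ x ∈ C, ∀ y ∈ C, x ≠ y → δ * n ≤ hammingDist x y)
    (hB : ∀ r : ℕ, r₀ ≤ r → (r : ℝ) ≤ δ * n → ∀ x ∈ I,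
      ((univ.filter fun z : Fin n → Bool => weight z = r ∧ z ∉ Err (Df C x)).card : ℝ) ≤
        bb n r * e) :
    ∀ k : ℕ, ((r₀ + k : ℕ) : ℝ) ≤ δ * n →
      ((Lay C I (r₀ + k)).card : ℝ) ≤
        I.card * bb n (r₀ + k) * ((1 - δ / 4) ^ k + 16 * e) := by
  have hn0 : (0 : ℝ) ≤ n := Nat.cast_nonneg n
  have hn16 : (16 : ℝ) ≤ n := by nlinarith
  have half : ∀ r : ℕ, (r : ℝ) ≤ δ * n → 2 * (r : ℝ) ≤ n := by
    intro r hr
    nlinarith
  intro k
  induction k with
  | zero =>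
    intro hr
    rw [Nat.add_zero] at hr ⊢
    have h1 := half _ hr
    have h2 := lay_first hr₀ (by exact_mod_cast h1) C I
    rw [pow_zero]
    have h3 : 0 ≤ (I.card : ℝ) * bb n r₀ := mul_nonneg (Nat.cast_nonneg _) (bb_pos _ _).le
    nlinarith [mul_nonneg h3 he]
  | succ k ih =>
    intro hr
    obtain ⟨r, hr'⟩ : ∃ r, r = r₀ + k := ⟨_, rfl⟩
    have hr1 : 1 ≤ r := by omega
    have e1 : r₀ + (k + 1) = r + 1 := by omega
    rw [e1] at hr ⊢
    rw [← hr'] at ih
    have hrR : (r : ℝ) + 1 ≤ δ * n := by exact_mod_cast hr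
    have hrle : (r : ℝ) ≤ δ * n := by linarith
    have ih' := ih hrle
    have hh := half _ hr
    push_cast at hh
    have hrn : r + 1 < n := by
      have : (r : ℝ) + 1 < n := by linarith
      exact_mod_cast this
    have h1 := growth hIC hC r
    have h2 := uni_card hIC r (hB r (by omega) hrle)
    have h3 := bb_step hr1 hrn
    obtain ⟨J, hJ⟩ : ∃ J : ℝ, J = I.card := ⟨_, rfl⟩
    obtain ⟨b, hb⟩ : ∃ b, b = bb n r := ⟨_, rfl⟩
    obtain ⟨b', hb'⟩ : ∃ b', b' = bb n (r + 1) := ⟨_, rfl⟩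
    obtain ⟨L, hL⟩ : ∃ L : ℝ, L = (1 - δ / 4) ^ k := ⟨_, rfl⟩
    have hJ0 : 0 ≤ J := by rw [hJ]; exact Nat.cast_nonneg _
    have hb0 : 0 < b := by rw [hb]; exact bb_pos _ _
    have hL0 : 0 ≤ L := by rw [hL]; exact pow_nonneg (by linarith) _
    rw [← hJ, ← hb] at h2
    rw [← hJ, ← hb, ← hL] at ih'
    rw [← hb, ← hb'] at h3
    rw [← hJ, ← hb', pow_succ, ← hL]
    have hnr : 0 ≤ (n : ℝ) - r - δ * n / 2 := by nlinarith
    have h4 : ((r : ℝ) + 1) * (Lay C I (r + 1)).card ≤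
        J * b * (((n : ℝ) - r - δ * n / 2) * (L + 16 * e) + δ * n / 2 * e) := by
      have k1 := mul_le_mul_of_nonneg_left ih' hnr
      have k2 := mul_le_mul_of_nonneg_left h2 (by positivity : 0 ≤ δ * n / 2)
      calc _ ≤ _ := h1
        _ ≤ ((n : ℝ) - r - δ * n / 2) * (J * b * (L + 16 * e)) + δ * n / 2 * (J * (b * e)) :=
            add_le_add k1 k2
        _ = _ := by ring
    have h5 : ((n : ℝ) - r - δ * n / 2) * (L + 16 * e) + δ * n / 2 * e ≤
        ((n : ℝ) - r - 1) * (L * (1 - δ / 4) + 16 * e) := by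
      have k1 : (n : ℝ) - r - δ * n / 2 ≤ (1 - δ / 4) * (n - r - 1) := by
        have : 0 ≤ δ * (r + 1) := by positivity
        nlinarith
      have k2 : ((n : ℝ) - r - δ * n / 2) * (L + 16 * e) ≤
          (1 - δ / 4) * (n - r - 1) * (L + 16 * e) :=
        mul_le_mul_of_nonneg_right k1 (by positivity)
      have k3 : δ * n / 2 * e ≤ δ / 4 * (n - r - 1) * (16 * e) := by
        have k4 : (n : ℝ) / 4 ≤ n - r - 1 := by linarith
        have k5 : δ * (n / 4) * e ≤ δ * (n - r - 1) * e :=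
          mul_le_mul_of_nonneg_right (mul_le_mul_of_nonneg_left k4 hδ0.le) he
        nlinarith
      nlinarith
    have h6 : J * b * (((n : ℝ) - r - δ * n / 2) * (L + 16 * e) + δ * n / 2 * e) ≤
        J * (b * (n - r - 1)) * (L * (1 - δ / 4) + 16 * e) := by
      have := mul_le_mul_of_nonneg_left h5 (mul_nonneg hJ0 hb0.le)
      linarith
    have h7 : J * (b * (n - r - 1)) * (L * (1 - δ / 4) + 16 * e) ≤
        J * (b' * (r + 1)) * (L * (1 - δ / 4) + 16 * e) := by
      refine mul_le_mul_of_nonneg_right (mul_le_mul_of_nonneg_left h3 hJ0) ?_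
      have : 0 ≤ L * (1 - δ / 4) := mul_nonneg hL0 (by linarith)
      positivity
    have h8 : ((r : ℝ) + 1) * (Lay C I (r + 1)).card ≤
        ((r : ℝ) + 1) * (J * b' * (L * (1 - δ / 4) + 16 * e)) := by
      calc _ ≤ _ := h4.trans (h6.trans h7)
        _ = _ := by ring
    exact le_of_mul_le_mul_left h8 (by positivity)

end Pool.Agent.H2x430
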