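import Pool.Agent.H2x430.Near

/-!
# H2x430: codes which do not correct random errors beat the Gilbert-Varshamov bound
-/

set_option autoImplicit false

namespace Pool.Agent.H2x430

open Finset Filter
open Pool.Agent.Results.MP_0430e4_lc.ConstantWeightCriterion (weight tr sum_prod pow_lower
  weight_tr tr_tr H H_eq H_eq' H_cont two_rpow volume weight_le prod_ite_eq nbhd mem_nbhd IsCode
  replacement A)

/-- The probability of a decoding error of the decoder `D` for the code `C` on the binary symmetric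
channel with crossover probability `p`, averaged over the code. -/
noncomputable def errorProb {n : ℕ} (p : ℝ) (C : Finset (Fin n → Bool))
    (D : (Fin n → Bool) → (Fin n → Bool)) : ℝ :=
  (∑ x ∈ C, ∑ y ∈ univ.filter (fun y => D y ≠ x),
    p ^ hammingDist x y * (1 - p) ^ (n - hammingDist x y)) / C.card

lemma mu_tr (p : ℝ) {n : ℕ} (x y : Fin n → Bool) :
    mu p (tr x y) = p ^ hammingDist x y * (1 - p) ^ (n - hammingDist x y) := by
  unfold mu
  rw [prod_ite_eq (fun i => tr x y i = true)]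
  have : (univ.filter fun i => tr x y i = true).card = hammingDist x y := weight_tr x y
  rw [this]

/-- a minimum distance decoder -/
lemma exists_decoder {n : ℕ} {C : Finset (Fin n → Bool)} (hne : C.Nonempty) {p : ℝ} (h0 : 0 ≤ p)
    (h1 : p ≤ 1) : ∃ D : (Fin n → Bool) → (Fin n → Bool),
    errorProb p C D * C.card ≤ ∑ x ∈ C, ∑ z ∈ Err (Df C x), mu p z := by
  classical
  choose D hD1 hD2 using fun y : Fin n → Bool => C.exists_min_image (fun x => hammingDist x y) hne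
  refine ⟨D, ?_⟩
  have hc : (C.card : ℝ) ≠ 0 := by exact_mod_cast hne.card_pos.ne'
  unfold errorProb
  rw [div_mul_cancel₀ _ hc]
  refine Finset.sum_le_sum fun x hx => ?_
  calc ∑ y ∈ univ.filter (fun y => D y ≠ x), p ^ hammingDist x y * (1 - p) ^ (n - hammingDist x y)
      = ∑ y ∈ univ.filter (fun y => D y ≠ x), mu p (tr x y) :=
        Finset.sum_congr rfl fun y _ => (mu_tr p x y).symm
    _ = ∑ z ∈ (univ.filter (fun y => D y ≠ x)).image (tr x), mu p z := by
        rw [Finset.sum_image fun a _ b _ h =>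
          Pool.Agent.Results.MP_0430e4_lc.ConstantWeightCriterion.tr_inj x h]
    _ ≤ _ := by
        refine Finset.sum_le_sum_of_subset_of_nonneg ?_ fun z _ _ => mu_nonneg h0 h1 z
        intro z hz
        obtain ⟨y, hy, rfl⟩ := Finset.mem_image.1 hz
        rw [mem_Err_Df]
        exact ⟨D y, hD1 y, (Finset.mem_filter.1 hy).2, hD2 y x hx⟩

lemma sum_mu_le_one {p : ℝ} (h0 : 0 ≤ p) (h1 : p ≤ 1) {n : ℕ} (E : Finset (Fin n → Bool)) :
    ∑ z ∈ E, mu p z ≤ 1 :=
  (Finset.sum_le_sum_of_subset_of_nonneg (Finset.subset_univ _)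
    fun w _ _ => mu_nonneg h0 h1 w).trans (le_of_eq (sum_mu p n))

/-- polynomial times exponential -/
lemma poly_exp {C ε : ℝ} (hε : 0 < ε) : ∀ᶠ n : ℕ in atTop, C * ((n : ℝ) + 1) * Real.exp (-(ε * n)) ≤ 1 / 3 := by
  have h1 : Tendsto (fun x : ℝ => x ^ 1 * Real.exp (-x)) atTop (nhds 0) :=
    Real.tendsto_pow_mul_exp_neg_atTop_nhds_zero 1
  have h2 : Tendsto (fun n : ℕ => ε * (n : ℝ)) atTop atTop :=
    tendsto_natCast_atTop_atTop.const_mul_atTop hε
  have h3 := h1.comp h2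
  have h4 : Tendsto (fun x : ℝ => Real.exp (-x)) atTop (nhds 0) := Real.tendsto_exp_neg_atTop_nhds_zero
  have h5 := h4.comp h2
  have h6 : Tendsto (fun n : ℕ => C / ε * (((fun x : ℝ => x ^ 1 * Real.exp (-x)) ∘
      fun n : ℕ => ε * (n : ℝ)) n) + C * (((fun x : ℝ => Real.exp (-x)) ∘
      fun n : ℕ => ε * (n : ℝ)) n)) atTop (nhds (C / ε * 0 + C * 0)) :=
    (h3.const_mul _).add (h5.const_mul _)
  rw [mul_zero, mul_zero, add_zero] at h6
  filter_upwards [h6.eventually (gt_mem_nhds (show (0 : ℝ) < 1 / 3 by norm_num))] with n hn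
  refine le_trans (le_of_eq ?_) hn.le
  simp only [Function.comp]
  field_simp

/-- **Codes which do not correct random errors beat the Gilbert-Varshamov bound.** -/
theorem key {δ p : ℝ} (hp0 : 0 < p) (hpδ : p < δ) (hδ : δ < 1 / 2) :
    ∃ c g : ℝ, 0 < c ∧ 0 < g ∧ ∀ᶠ n : ℕ in atTop, ∀ C : Finset (Fin n → Bool), C.Nonempty →
      IsCode ⌈δ * n⌉₊ C → (∀ D, (2 : ℝ) ^ (-(c * n)) < errorProb p C D) →
      (2 : ℝ) ^ ((1 - H δ + g) * n) ≤ A n ⌈δ * n⌉₊ := by
  classical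
  have hδ0 : 0 < δ := by linarith
  have hl2 : 0 < Real.log 2 := Real.log_pos (by norm_num)
  have hl2' : Real.log 2 < 1 := by
    have := Real.log_two_lt_d9
    linarith
  -- the constants
  obtain ⟨p', hp'⟩ : ∃ p', p' = (p + δ) / 2 := ⟨_, rfl⟩
  have hpp' : p < p' := by rw [hp']; linarith
  have hp'δ : p' < δ := by rw [hp']; linarith
  obtain ⟨q₀, hq₀⟩ : ∃ q₀, q₀ = (p' - p) / (1 - p) := ⟨_, rfl⟩
  have hq₀0 : 0 < q₀ := by rw [hq₀]; exact div_pos (by linarith) (by linarith)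
  obtain ⟨κ₁, hκ₁⟩ : ∃ κ₁, κ₁ = q₀ * δ / 8 := ⟨_, rfl⟩
  have hκ₁0 : 0 < κ₁ := by rw [hκ₁]; positivity
  obtain ⟨a, ha⟩ : ∃ a, a = min (δ * (δ - p') / 8) (κ₁ ^ 2 / 2) := ⟨_, rfl⟩
  have ha0 : 0 < a := by
    rw [ha]
    exact lt_min (div_pos (mul_pos hδ0 (by linarith)) (by norm_num)) (by positivity)
  have ha1 : a ≤ δ * (δ - p') / 8 := by rw [ha]; exact min_le_left _ _
  have ha2 : a ≤ κ₁ ^ 2 / 2 := by rw [ha]; exact min_le_right _ _
  obtain ⟨τ, hτ0, hτ1, hτ2, hτ3⟩ : ∃ τ : ℝ, 0 < τ ∧ 4 * τ ≤ 1 / 2 ∧ 5 * τ ≤ (δ - p') / 2 ∧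
      H (4 * τ) * Real.log 2 ≤ a / 2 := by
    have h1 : ∀ᶠ t in nhds (0 : ℝ), H t * Real.log 2 < a / 2 := by
      have h2 : Tendsto (fun t => H t * Real.log 2) (nhds 0) (nhds (H 0 * Real.log 2)) :=
        (H_cont.mul continuous_const).tendsto 0
      refine h2.eventually (gt_mem_nhds ?_)
      rw [H_eq]
      simp
      exact ha0
    obtain ⟨ε, hε, hball⟩ := Metric.eventually_nhds_iff.1 h1
    have hpos : 0 < min (min (1 / 8) ((δ - p') / 10)) (ε / 8) :=
      lt_min (lt_min (by norm_num) (by linarith)) (by linarith)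
    refine ⟨min (min (1 / 8) ((δ - p') / 10)) (ε / 8), hpos, ?_, ?_, ?_⟩
    · have := (min_le_left (min (1 / 8) ((δ - p') / 10)) (ε / 8)).trans (min_le_left _ _)
      linarith
    · have := (min_le_left (min (1 / 8) ((δ - p') / 10)) (ε / 8)).trans (min_le_right _ _)
      linarith
    · refine (hball ?_).le
      rw [Real.dist_eq, sub_zero, abs_of_pos (by linarith)]
      have := min_le_right (min (1 / 8) ((δ - p') / 10)) (ε / 8)
      linarith
  obtain ⟨κ, hκ⟩ : ∃ κ, κ = τ * δ / 16 := ⟨_, rfl⟩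
  have hκ0 : 0 < κ := by rw [hκ]; positivity
  have hκτ : κ ≤ τ := by rw [hκ]; nlinarith only [hτ0, hδ, hδ0]
  have hκδ : 4 * κ ≤ δ := by rw [hκ]; nlinarith only [hτ0, hτ1, hδ0]
  have hτκ : τ * δ = 16 * κ := by rw [hκ]; ring
  obtain ⟨g₁, hg₁⟩ : ∃ g₁, g₁ = H δ - H (δ - κ) := ⟨_, rfl⟩
  have hg₁0 : 0 < g₁ := by
    rw [hg₁, H_eq', H_eq', ← sub_div]
    refine div_pos (sub_pos.2 ?_) hl2
    refine Real.binEntropy_strictMonoOn ?_ ?_ (by linarith)
    · rw [Set.mem_Icc]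
      constructor
      · linarith
      · norm_num; linarith
    · rw [Set.mem_Icc]
      constructor
      · linarith
      · norm_num; linarith
  obtain ⟨c, hc⟩ : ∃ c, c = min (κ₁ ^ 2 / 2) (min (g₁ / 2) (κ / 2)) := ⟨_, rfl⟩
  have hc0 : 0 < c := by
    rw [hc]
    exact lt_min (by positivity) (lt_min (by linarith) (by linarith))
  have hc1 : c ≤ κ₁ ^ 2 / 2 := by rw [hc]; exact min_le_left _ _
  have hc2 : c ≤ g₁ / 2 := by rw [hc]; exact (min_le_right _ _).trans (min_le_left _ _)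
  have hc3 : c ≤ κ / 2 := by rw [hc]; exact (min_le_right _ _).trans (min_le_right _ _)
  obtain ⟨b, hb⟩ : ∃ b, b = min (g₁ / 4 * Real.log 2) (min (κ / 4 * Real.log 2) (a / 4)) := ⟨_, rfl⟩
  have hb0 : 0 < b := by
    rw [hb]
    exact lt_min (by positivity) (lt_min (by positivity) (by linarith))
  have hb1 : b ≤ g₁ / 4 * Real.log 2 := by rw [hb]; exact min_le_left _ _
  have hb2 : b ≤ κ / 4 * Real.log 2 := by rw [hb]; exact (min_le_right _ _).trans (min_le_left _ _)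
  have hb3 : b ≤ a / 4 := by rw [hb]; exact (min_le_right _ _).trans (min_le_right _ _)
  refine ⟨c, b / Real.log 2, hc0, by positivity, ?_⟩
  filter_upwards [poly_exp (C := 2) (ε := g₁ / 4 * Real.log 2) (by positivity),
    poly_exp (C := 2) (ε := κ / 4 * Real.log 2) (by positivity),
    poly_exp (C := 67) (ε := a / 4) (by linarith),
    tendsto_natCast_atTop_atTop.eventually_ge_atTop (1 / κ),
    tendsto_natCast_atTop_atTop.eventually_ge_atTop (8 / δ),
    tendsto_natCast_atTop_atTop.eventually_ge_atTop (1 / p'),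
    eventually_ge_atTop 1] with n h1 h2 h3 h4 h5 h6 hn1 C hCne hCode hErr
  have hn : (0 : ℝ) < n := by exact_mod_cast hn1
  have hnκ : 1 ≤ κ * n := by
    rw [div_le_iff₀ hκ0] at h4
    linarith
  have hnδ : 8 ≤ δ * n := by
    rw [div_le_iff₀ hδ0] at h5
    linarith
  have hp'0 : 0 < p' := by linarith
  have hnp : 1 ≤ p' * n := by
    rw [div_le_iff₀ hp'0] at h6
    linarith
  have hC : ∀ x ∈ C, ∀ y ∈ C, x ≠ y → δ * n ≤ hammingDist x y := by
    intro x hx y hy hxy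
    exact (Nat.le_ceil _).trans (by exact_mod_cast hCode x hx y hy hxy)
  obtain ⟨Q, hQ⟩ : ∃ Q : ℝ, Q = C.card := ⟨_, rfl⟩
  have hCc : 0 < Q := by rw [hQ]; exact_mod_cast hCne.card_pos
  -- the words with frequent errors
  obtain ⟨η, hη⟩ : ∃ η : ℝ, η = (2 : ℝ) ^ (-(c * n)) / 2 := ⟨_, rfl⟩
  have hη0 : 0 < η := by rw [hη]; positivity
  obtain ⟨I, hI⟩ : ∃ I : Finset (Fin n → Bool), I = C.filter fun x =>
    η ≤ ∑ z ∈ Err (Df C x), mu p z := ⟨_, rfl⟩
  have hIC : I ⊆ C := by rw [hI]; exact Finset.filter_subset _ _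
  obtain ⟨J, hJ⟩ : ∃ J : ℝ, J = I.card := ⟨_, rfl⟩
  have hIcard : η * Q ≤ J := by
    obtain ⟨D, hD⟩ := exists_decoder hCne hp0.le (by linarith : p ≤ 1)
    have h7 := mul_lt_mul_of_pos_right (hErr D) hCc
    rw [← hQ] at hD
    have h8 : ∑ x ∈ C, ∑ z ∈ Err (Df C x), mu p z ≤ J + η * Q := by
      rw [← Finset.sum_filter_add_sum_filter_not C (fun x => η ≤ ∑ z ∈ Err (Df C x), mu p z), ← hI]
      refine add_le_add ?_ ?_
      · calc ∑ x ∈ I, ∑ z ∈ Err (Df C x), mu p z ≤ ∑ _x ∈ I, (1 : ℝ) :=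
            Finset.sum_le_sum fun x _ => sum_mu_le_one hp0.le (by linarith) _
          _ = J := by rw [hJ]; simp
      · calc ∑ x ∈ C.filter (fun x => ¬ η ≤ ∑ z ∈ Err (Df C x), mu p z), ∑ z ∈ Err (Df C x), mu p z
            ≤ ∑ _x ∈ C.filter (fun x => ¬ η ≤ ∑ z ∈ Err (Df C x), mu p z), η :=
              Finset.sum_le_sum fun x hx => (not_le.1 (Finset.mem_filter.1 hx).2).le
          _ = (C.filter (fun x => ¬ η ≤ ∑ z ∈ Err (Df C x), mu p z)).card * η := by
              rw [Finset.sum_const, nsmul_eq_mul]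
          _ ≤ Q * η := by
              refine mul_le_mul_of_nonneg_right ?_ hη0.le
              rw [hQ]
              exact_mod_cast Finset.card_filter_le _ _
          _ = _ := mul_comm _ _
    have h9 : (2 : ℝ) ^ (-(c * n)) = 2 * η := by rw [hη]; ring
    rw [h9] at h7
    linarith
  have hI0 : 0 < J := lt_of_lt_of_le (mul_pos hη0 hCc) hIcard
  -- the number of the words without an error
  obtain ⟨e, he⟩ : ∃ e, e = 4 * Real.exp (-(κ₁ ^ 2 / 2 * n)) := ⟨_, rfl⟩
  have he0 : 0 ≤ e := by rw [he]; positivity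
  have hcl : c * Real.log 2 ≤ c := mul_le_of_le_one_right hc0.le hl2'.le
  have hslice : ∀ r : ℕ, p' * n ≤ r → (r : ℝ) ≤ δ * n → ∀ x ∈ I,
      ((univ.filter fun z : Fin n → Bool => weight z = r ∧ z ∉ Err (Df C x)).card : ℝ) ≤
        bb n r * e := by
    intro r hr1 hr2 x hx
    have hr0 : 1 ≤ r := by
      have : (1 : ℝ) ≤ r := hnp.trans hr1
      exact_mod_cast this
    have hr3 : 2 * r ≤ n := by
      have : 2 * (r : ℝ) ≤ n := by nlinarith only [hr2, hδ, hn]
      exact_mod_cast this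
    refine (slice hr0 hr3 _).trans (mul_le_mul_of_nonneg_left ?_ (bb_pos _ _).le)
    obtain ⟨ρ, hρ⟩ : ∃ ρ, ρ = (r : ℝ) / n := ⟨_, rfl⟩
    rw [← hρ]
    have hρ1 : p' ≤ ρ := by rw [hρ, le_div_iff₀ hn]; exact hr1
    have hρ2 : ρ ≤ δ := by rw [hρ, div_le_iff₀ hn]; exact hr2
    obtain ⟨q, hq⟩ : ∃ q, q = 1 - (1 - ρ) / (1 - p) := ⟨_, rfl⟩
    have h1p : 0 < 1 - p := by linarith
    have hq1 : q₀ ≤ q := by
      rw [hq, hq₀, le_sub_iff_add_le, ← add_div, div_le_one h1p]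
      linarith
    have hq2 : q ≤ 1 := by
      rw [hq]
      have : 0 ≤ (1 - ρ) / (1 - p) := div_nonneg (by linarith) h1p.le
      linarith
    have hqρ : 1 - ρ = (1 - p) * (1 - q) := by
      rw [hq]
      field_simp
      ring
    have hU : ∀ u ∈ Df C x, δ * n ≤ weight u := by
      intro u hu
      unfold Df at hu
      obtain ⟨x', hx', rfl⟩ := Finset.mem_image.1 hu
      rw [Finset.mem_erase] at hx'
      rw [weight_tr]
      exact hC x (hIC hx) x' hx'.2 (Ne.symm hx'.1)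
    have h7 := amp hδ0 (by linarith) hp0.le (by linarith) (hq₀0.le.trans hq1) hq2 hqρ (Df C x) hU
    have h8 : Real.exp (-((q * δ / 8) ^ 2 * n)) ≤ Real.exp (-(κ₁ ^ 2 * n)) := by
      apply Real.exp_le_exp.2
      have h9 : κ₁ ≤ q * δ / 8 := by
        rw [hκ₁]
        have := mul_le_mul_of_nonneg_right hq1 hδ0.le
        linarith
      have h10 : κ₁ ^ 2 ≤ (q * δ / 8) ^ 2 := pow_le_pow_left₀ hκ₁0.le h9 2
      have := mul_le_mul_of_nonneg_right h10 hn.le
      linarith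
    have h9 : η ≤ ∑ z ∈ Err (Df C x), mu p z := by
      rw [hI, Finset.mem_filter] at hx
      exact hx.2
    have hE0 : 0 ≤ ∑ z ∈ (Err (Df C x))ᶜ, mu ρ z :=
      Finset.sum_nonneg fun z _ => mu_nonneg (by linarith) (by linarith) z
    have h10 : η * ∑ z ∈ (Err (Df C x))ᶜ, mu ρ z ≤ 2 * Real.exp (-(κ₁ ^ 2 * n)) := by
      calc _ ≤ (∑ z ∈ Err (Df C x), mu p z) * ∑ z ∈ (Err (Df C x))ᶜ, mu ρ z :=
            mul_le_mul_of_nonneg_right h9 hE0
        _ ≤ 2 * Real.exp (-((q * δ / 8) ^ 2 * n)) := h7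
        _ ≤ _ := by linarith
    have h11 : 2 * Real.exp (-(κ₁ ^ 2 * n)) ≤ η * e := by
      rw [hη, he, two_rpow]
      have e1 : Real.exp (Real.log 2 * -(c * n)) / 2 * (4 * Real.exp (-(κ₁ ^ 2 / 2 * n))) =
          2 * Real.exp (Real.log 2 * -(c * n) + -(κ₁ ^ 2 / 2 * n)) := by
        rw [Real.exp_add]; ring
      rw [e1]
      refine mul_le_mul_of_nonneg_left (Real.exp_le_exp.2 ?_) (by norm_num)
      have := mul_le_mul_of_nonneg_right (hcl.trans hc1) hn.le
      linarith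
    exact le_of_mul_le_mul_left (h10.trans h11) hη0
  -- the decay of the layers
  have hr₀ : 1 ≤ ⌈p' * n⌉₊ := Nat.one_le_iff_ne_zero.2 (Nat.ceil_pos.2 (by linarith)).ne'
  have hdec := decay hδ0 hδ.le he0 hr₀ hnδ hIC hC (fun r hr hr2 x hx =>
    hslice r ((Nat.le_ceil _).trans (by exact_mod_cast hr)) hr2 x hx)
  rw [← hJ] at hdec
  obtain ⟨M, hM⟩ : ∃ M, M = J * (2 : ℝ) ^ (H δ * n) * (67 * Real.exp (-(a * n))) := ⟨_, rfl⟩
  have hM0 : 0 ≤ M := by rw [hM]; positivity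
  have hLay : ∀ r : ℕ, (δ - κ - 4 * τ) * n ≤ r → (r : ℝ) ≤ δ * n →
      ((Lay C I r).card : ℝ) ≤ M := by
    intro r hr1 hr2
    have hceil : (⌈p' * n⌉₊ : ℝ) < p' * n + 1 := Nat.ceil_lt_add_one (by positivity)
    have hmid : p' * n + (δ - p') / 2 * n ≤ r := by
      have : p' + (δ - p') / 2 ≤ δ - κ - 4 * τ := by linarith
      have := mul_le_mul_of_nonneg_right this hn.le
      linarith
    have hr3 : ⌈p' * n⌉₊ ≤ r := by
      rw [Nat.ceil_le]
      have : 0 ≤ (δ - p') / 2 * n := mul_nonneg (by linarith) hn.le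
      linarith
    obtain ⟨k, rfl⟩ := Nat.exists_eq_add_of_le hr3
    have h7 := hdec k hr2
    refine h7.trans ?_
    have hk : (δ - p') / 2 * n - 1 ≤ k := by
      push_cast at hmid
      linarith
    have h8 : bb n (⌈p' * n⌉₊ + k) ≤ (2 : ℝ) ^ (H δ * n) := by
      unfold bb
      apply Real.rpow_le_rpow_of_exponent_le (by norm_num)
      refine mul_le_mul_of_nonneg_right ?_ hn.le
      rw [H_eq', H_eq']
      refine div_le_div_of_nonneg_right ?_ hl2.le
      refine Real.binEntropy_strictMonoOn.monotoneOn ?_ ?_ ?_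
      · rw [Set.mem_Icc]
        refine ⟨by positivity, ?_⟩
        rw [div_le_iff₀ hn]
        have : δ * n ≤ 2⁻¹ * n := mul_le_mul_of_nonneg_right (by norm_num; linarith) hn.le
        linarith
      · rw [Set.mem_Icc]
        exact ⟨hδ0.le, by norm_num; linarith⟩
      · rw [div_le_iff₀ hn]; exact hr2
    have h9 : (1 - δ / 4) ^ k ≤ 3 * Real.exp (-(a * n)) := by
      have e1 : 1 - δ / 4 ≤ Real.exp (-(δ / 4)) := by
        have := Real.add_one_le_exp (-(δ / 4))
        linarith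
      calc (1 - δ / 4) ^ k ≤ Real.exp (-(δ / 4)) ^ k := pow_le_pow_left₀ (by linarith) e1 k
        _ = Real.exp (k * -(δ / 4)) := by rw [← Real.exp_nat_mul]
        _ ≤ Real.exp (1 + -(a * n)) := by
            apply Real.exp_le_exp.2
            have e2 := mul_le_mul_of_nonneg_right hk (by linarith : 0 ≤ δ / 4)
            have e3 := mul_le_mul_of_nonneg_right ha1 hn.le
            have e4 : ((δ - p') / 2 * n - 1) * (δ / 4) = δ * (δ - p') / 8 * n - δ / 4 := by ring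
            linarith only [e2, e3, e4, hδ]
        _ = Real.exp 1 * Real.exp (-(a * n)) := Real.exp_add _ _
        _ ≤ _ := by
            refine mul_le_mul_of_nonneg_right ?_ (Real.exp_pos _).le
            have := Real.exp_one_lt_d9
            linarith
    have h10 : e ≤ 4 * Real.exp (-(a * n)) := by
      rw [he]
      refine mul_le_mul_of_nonneg_left (Real.exp_le_exp.2 ?_) (by norm_num)
      have := mul_le_mul_of_nonneg_right ha2 hn.le
      linarith
    rw [hM]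
    have h11 : (1 - δ / 4) ^ k + 16 * e ≤ 67 * Real.exp (-(a * n)) := by linarith
    have h12 : 0 ≤ (1 - δ / 4) ^ k + 16 * e :=
      add_nonneg (pow_nonneg (by linarith) _) (by positivity)
    calc J * bb n (⌈p' * n⌉₊ + k) * ((1 - δ / 4) ^ k + 16 * e)
        ≤ J * (2 : ℝ) ^ (H δ * n) * ((1 - δ / 4) ^ k + 16 * e) :=
          mul_le_mul_of_nonneg_right (mul_le_mul_of_nonneg_left h8 hI0.le) h12
      _ ≤ _ := mul_le_mul_of_nonneg_left h11 (by positivity)
  -- the number of the words near `I`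
  have hN := card_nbhd hκ0 hκδ hδ.le hτκ hτ0 hτ1 hM0 hnκ hIC hC hLay
  rw [← hQ] at hN
  -- |C| in terms of |I|
  have hCI : Q ≤ 2 * (2 : ℝ) ^ (c * n) * J := by
    have h7 : (2 : ℝ) ^ (c * n) * (2 * η) = 1 := by
      rw [hη, mul_div_cancel₀ _ (by norm_num), ← Real.rpow_add (by norm_num)]
      simp
    calc Q = (2 : ℝ) ^ (c * n) * (2 * η) * Q := by rw [h7, one_mul]
      _ = 2 * (2 : ℝ) ^ (c * n) * (η * Q) := by ring
      _ ≤ _ := mul_le_mul_of_nonneg_left hIcard (by positivity)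
  obtain ⟨V, hV⟩ : ∃ V : ℝ, V = J * (2 : ℝ) ^ (H δ * n) := ⟨_, rfl⟩
  have hV0 : 0 < V := by rw [hV]; positivity
  have t1 : Q * (2 : ℝ) ^ (H (δ - κ) * n) ≤ V * (1 / 3 * Real.exp (-(b * n))) := by
    have e1 : Q * (2 : ℝ) ^ (H (δ - κ) * n) ≤
        2 * (2 : ℝ) ^ (c * n) * J * (2 : ℝ) ^ (H (δ - κ) * n) :=
      mul_le_mul_of_nonneg_right hCI (by positivity)
    refine e1.trans ?_
    have e2 : 2 * (2 : ℝ) ^ (c * n) * J * (2 : ℝ) ^ (H (δ - κ) * n) =
        V * (2 * Real.exp (Real.log 2 * ((c - g₁) * n))) := by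
      rw [← two_rpow, hV, hg₁]
      have : (2 : ℝ) ^ (H (δ - κ) * n) * (2 : ℝ) ^ (c * n) =
          (2 : ℝ) ^ (H δ * n) * (2 : ℝ) ^ ((c - (H δ - H (δ - κ))) * n) := by
        rw [← Real.rpow_add (by norm_num), ← Real.rpow_add (by norm_num)]
        congr 1; ring
      calc _ = 2 * J * ((2 : ℝ) ^ (H (δ - κ) * n) * (2 : ℝ) ^ (c * n)) := by ring
        _ = _ := by rw [this]; ring
    rw [e2]
    refine mul_le_mul_of_nonneg_left ?_ hV0.le
    have e3 : Real.exp (Real.log 2 * ((c - g₁) * n)) ≤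
        Real.exp (-(g₁ / 4 * Real.log 2 * n)) * Real.exp (-(b * n)) := by
      rw [← Real.exp_add]
      apply Real.exp_le_exp.2
      have k1 : c - g₁ ≤ -(g₁ / 2) := by linarith
      have k2 := mul_le_mul_of_nonneg_right (mul_le_mul_of_nonneg_right k1 hn.le) hl2.le
      have k3 := mul_le_mul_of_nonneg_right hb1 hn.le
      have k4 : Real.log 2 * ((c - g₁) * n) = (c - g₁) * n * Real.log 2 := by ring
      have k5 : -(g₁ / 2) * n * Real.log 2 = -(2 * (g₁ / 4 * Real.log 2 * n)) := by ring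
      linarith only [k2, k3, k4, k5]
    have e4 : 2 * Real.exp (-(g₁ / 4 * Real.log 2 * n)) ≤ 1 / 3 := by
      refine le_trans ?_ h1
      have e5 : (1 : ℝ) ≤ n + 1 := by linarith only [hn]
      have e6 := mul_le_mul_of_nonneg_right e5 (Real.exp_pos (-(g₁ / 4 * Real.log 2 * n))).le
      linarith only [e6]
    calc 2 * Real.exp (Real.log 2 * ((c - g₁) * n))
        ≤ 2 * (Real.exp (-(g₁ / 4 * Real.log 2 * n)) * Real.exp (-(b * n))) :=
          mul_le_mul_of_nonneg_left e3 (by norm_num)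
      _ = 2 * Real.exp (-(g₁ / 4 * Real.log 2 * n)) * Real.exp (-(b * n)) := by ring
      _ ≤ _ := mul_le_mul_of_nonneg_right e4 (Real.exp_pos _).le
  have t2 : Q * (2 : ℝ) ^ (H δ * n) / (2 : ℝ) ^ (κ * n) ≤ V * (1 / 3 * Real.exp (-(b * n))) := by
    have e1 : Q * (2 : ℝ) ^ (H δ * n) / (2 : ℝ) ^ (κ * n) ≤
        2 * (2 : ℝ) ^ (c * n) * J * (2 : ℝ) ^ (H δ * n) / (2 : ℝ) ^ (κ * n) :=
      div_le_div_of_nonneg_right (mul_le_mul_of_nonneg_right hCI (by positivity)) (by positivity)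
    refine e1.trans ?_
    have e2 : 2 * (2 : ℝ) ^ (c * n) * J * (2 : ℝ) ^ (H δ * n) / (2 : ℝ) ^ (κ * n) =
        V * (2 * Real.exp (Real.log 2 * ((c - κ) * n))) := by
      rw [← two_rpow, hV]
      have : (2 : ℝ) ^ (c * n) / (2 : ℝ) ^ (κ * n) = (2 : ℝ) ^ ((c - κ) * n) := by
        rw [← Real.rpow_sub (by norm_num)]
        congr 1; ring
      calc _ = J * (2 : ℝ) ^ (H δ * n) * (2 * ((2 : ℝ) ^ (c * n) / (2 : ℝ) ^ (κ * n))) := by
            ring
        _ = _ := by rw [this]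
    rw [e2]
    refine mul_le_mul_of_nonneg_left ?_ hV0.le
    have e3 : Real.exp (Real.log 2 * ((c - κ) * n)) ≤
        Real.exp (-(κ / 4 * Real.log 2 * n)) * Real.exp (-(b * n)) := by
      rw [← Real.exp_add]
      apply Real.exp_le_exp.2
      have k1 : c - κ ≤ -(κ / 2) := by linarith
      have k2 := mul_le_mul_of_nonneg_right (mul_le_mul_of_nonneg_right k1 hn.le) hl2.le
      have k3 := mul_le_mul_of_nonneg_right hb2 hn.le
      have k4 : Real.log 2 * ((c - κ) * n) = (c - κ) * n * Real.log 2 := by ring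
      have k5 : -(κ / 2) * n * Real.log 2 = -(2 * (κ / 4 * Real.log 2 * n)) := by ring
      linarith only [k2, k3, k4, k5]
    have e4 : 2 * Real.exp (-(κ / 4 * Real.log 2 * n)) ≤ 1 / 3 := by
      refine le_trans ?_ h2
      have e5 : (1 : ℝ) ≤ n + 1 := by linarith only [hn]
      have e6 := mul_le_mul_of_nonneg_right e5 (Real.exp_pos (-(κ / 4 * Real.log 2 * n))).le
      linarith only [e6]
    calc 2 * Real.exp (Real.log 2 * ((c - κ) * n))
        ≤ 2 * (Real.exp (-(κ / 4 * Real.log 2 * n)) * Real.exp (-(b * n))) :=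
          mul_le_mul_of_nonneg_left e3 (by norm_num)
      _ = 2 * Real.exp (-(κ / 4 * Real.log 2 * n)) * Real.exp (-(b * n)) := by ring
      _ ≤ _ := mul_le_mul_of_nonneg_right e4 (Real.exp_pos _).le
  have t3 : ((n : ℝ) + 1) * (M * (2 : ℝ) ^ (H (4 * τ) * n)) ≤ V * (1 / 3 * Real.exp (-(b * n))) := by
    have e1 : (2 : ℝ) ^ (H (4 * τ) * n) ≤ Real.exp (a / 2 * n) := by
      rw [two_rpow]
      apply Real.exp_le_exp.2
      have := mul_le_mul_of_nonneg_right hτ3 hn.le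
      linarith
    calc ((n : ℝ) + 1) * (M * (2 : ℝ) ^ (H (4 * τ) * n))
        ≤ ((n : ℝ) + 1) * (M * Real.exp (a / 2 * n)) :=
          mul_le_mul_of_nonneg_left (mul_le_mul_of_nonneg_left e1 hM0) (by positivity)
      _ = V * (67 * ((n : ℝ) + 1) * (Real.exp (-(a * n)) * Real.exp (a / 2 * n))) := by
          rw [hM, hV]; ring
      _ ≤ V * (67 * ((n : ℝ) + 1) * (Real.exp (-(a / 4 * n)) * Real.exp (-(b * n)))) := by
          refine mul_le_mul_of_nonneg_left (mul_le_mul_of_nonneg_left ?_ (by positivity)) hV0.le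
          rw [← Real.exp_add, ← Real.exp_add]
          apply Real.exp_le_exp.2
          have k3 := mul_le_mul_of_nonneg_right hb3 hn.le
          linarith only [k3]
      _ = V * (67 * ((n : ℝ) + 1) * Real.exp (-(a / 4 * n)) * Real.exp (-(b * n))) := by ring
      _ ≤ _ := mul_le_mul_of_nonneg_left
          (mul_le_mul_of_nonneg_right h3 (Real.exp_pos _).le) hV0.le
  have hNV : ((nbhd ⌈δ * n⌉₊ I).card : ℝ) ≤ V * Real.exp (-(b * n)) := by
    refine hN.trans ?_
    have : V * Real.exp (-(b * n)) = V * (1 / 3 * Real.exp (-(b * n))) +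
      V * (1 / 3 * Real.exp (-(b * n))) + V * (1 / 3 * Real.exp (-(b * n))) := by ring
    rw [this]
    exact add_le_add (add_le_add t1 t2) t3
  -- replacement
  have hd : 1 ≤ ⌈δ * n⌉₊ := Nat.one_le_iff_ne_zero.2 (Nat.ceil_pos.2 (by positivity)).ne'
  have hrep := replacement hd I (fun x hx y hy hxy => hCode x (hIC hx) y (hIC hy) hxy)
  have hrepR : J * 2 ^ n ≤ A n ⌈δ * n⌉₊ * ((nbhd ⌈δ * n⌉₊ I).card : ℝ) := by
    rw [hJ]
    exact_mod_cast hrep
  have hA0 : (0 : ℝ) ≤ A n ⌈δ * n⌉₊ := Nat.cast_nonneg _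
  have h7 : J * 2 ^ n ≤ A n ⌈δ * n⌉₊ * (V * Real.exp (-(b * n))) :=
    hrepR.trans (mul_le_mul_of_nonneg_left hNV hA0)
  have h8 : J * 2 ^ n ≤
      J * (A n ⌈δ * n⌉₊ * ((2 : ℝ) ^ (H δ * n) * Real.exp (-(b * n)))) := by
    calc _ ≤ _ := h7
      _ = _ := by rw [hV]; ring
  have h9 := le_of_mul_le_mul_left h8 hI0
  have h10 : (2 : ℝ) ^ ((1 - H δ + b / Real.log 2) * n) *
      ((2 : ℝ) ^ (H δ * n) * Real.exp (-(b * n))) = 2 ^ n := by
    have e1 : Real.exp (-(b * n)) = (2 : ℝ) ^ (-(b / Real.log 2 * n)) := by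
      rw [two_rpow]
      congr 1
      field_simp
    rw [e1, ← Real.rpow_add (by norm_num), ← Real.rpow_add (by norm_num), ← Real.rpow_natCast]
    congr 1
    ring
  rw [← h10] at h9
  exact le_of_mul_le_mul_right h9 (by positivity)

end Pool.Agent.H2x430
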