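import Pool.Agent.H2x430.Amp

/-!
# H2x430: the layers around a code, and their growth
-/

set_option autoImplicit false

namespace Pool.Agent.H2x430

open Finset
open Pool.Agent.Results.MP_0430e4_lc.ConstantWeightCriterion (weight tr sum_prod pow_lower
  weight_tr tr_tr H H_eq two_rpow volume weight_le prod_ite_eq)

section

variable {n : ℕ}

/-- the words at distance `r` from `I` and from `C` -/
def Lay (C I : Finset (Fin n → Bool)) (r : ℕ) : Finset (Fin n → Bool) :=
  univ.filter fun y => (∃ x ∈ I, hammingDist x y = r) ∧ ∀ x ∈ C, r ≤ hammingDist x y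

/-- the words of the layer with only one nearest word of `C` -/
def Uni (C I : Finset (Fin n → Bool)) (r : ℕ) : Finset (Fin n → Bool) :=
  (Lay C I r).filter fun y => ∀ x ∈ C, ∀ x' ∈ C, hammingDist x y = r → hammingDist x' y = r → x = x'

/-- flip one coordinate -/
def flp (y : Fin n → Bool) (i : Fin n) : Fin n → Bool := Function.update y i (!y i)

lemma flp_flp (y : Fin n → Bool) (i : Fin n) : flp (flp y i) i = y := by
  unfold flp
  simp

lemma dist_eq_sum (x y : Fin n → Bool) : hammingDist x y = ∑ i, if x i ≠ y i then 1 else 0 := by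
  unfold hammingDist
  rw [Finset.card_filter]

lemma dist_flp_ne {x y : Fin n → Bool} {i : Fin n} (h : x i ≠ y i) :
    hammingDist x (flp y i) + 1 = hammingDist x y := by
  rw [dist_eq_sum, dist_eq_sum, ← Finset.add_sum_erase _ _ (Finset.mem_univ i),
    ← Finset.add_sum_erase (univ : Finset (Fin n)) (fun i => if x i ≠ y i then 1 else 0)
      (Finset.mem_univ i)]
  have h1 : ∑ j ∈ univ.erase i, (if x j ≠ flp y i j then 1 else 0) =
      ∑ j ∈ univ.erase i, (if x j ≠ y j then 1 else 0) := by
    refine Finset.sum_congr rfl fun j hj => ?_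
    unfold flp
    rw [Function.update_of_ne (Finset.ne_of_mem_erase hj)]
  rw [h1, if_pos h]
  have h2 : ¬ (x i ≠ flp y i i) := by
    unfold flp
    rw [Function.update_self]
    revert h
    cases x i <;> cases y i <;> simp
  rw [if_neg h2]
  omega

lemma dist_flp_eq {x y : Fin n → Bool} {i : Fin n} (h : x i = y i) :
    hammingDist x (flp y i) = hammingDist x y + 1 := by
  have h2 : x i ≠ flp y i i := by
    unfold flp
    rw [Function.update_self, h]
    cases y i <;> simp
  have := dist_flp_ne (x := x) (y := flp y i) h2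
  rw [flp_flp] at this
  exact this.symm

lemma dist_flp_ge (x y : Fin n → Bool) (i : Fin n) :
    hammingDist x y ≤ hammingDist x (flp y i) + 1 := by
  by_cases h : x i = y i
  · rw [dist_flp_eq h]; omega
  · rw [dist_flp_ne h]

lemma card_eq_sub (x y : Fin n → Bool) :
    (univ.filter fun i => x i = y i).card + hammingDist x y = n := by
  unfold hammingDist
  have := Finset.card_filter_add_card_filter_not (s := (univ : Finset (Fin n))) (fun i => x i = y i)
  rw [Finset.card_univ, Fintype.card_fin] at this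
  exact this

lemma agree (x x' y : Fin n → Bool) :
    2 * (univ.filter fun i => x i = y i ∧ x' i = y i).card + hammingDist x y + hammingDist x' y +
      hammingDist x x' = 2 * n := by
  rw [dist_eq_sum, dist_eq_sum, dist_eq_sum, Finset.card_filter, Finset.mul_sum,
    ← Finset.sum_add_distrib, ← Finset.sum_add_distrib, ← Finset.sum_add_distrib]
  have : ∀ i : Fin n, (2 * (if x i = y i ∧ x' i = y i then 1 else 0) + (if x i ≠ y i then 1 else 0) +
      (if x' i ≠ y i then 1 else 0) + if x i ≠ x' i then 1 else 0) = 2 := by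
    intro i
    cases x i <;> cases y i <;> cases x' i <;> simp
  rw [Finset.sum_congr rfl fun i _ => this i]
  simp [mul_comm]

/-- the number of edges between the layers -/
lemma edges_down (C I : Finset (Fin n → Bool)) (r : ℕ) :
    (r + 1) * (Lay C I (r + 1)).card ≤
      ∑ y ∈ Lay C I r, (univ.filter fun i => flp y i ∈ Lay C I (r + 1)).card := by
  classical
  have h1 : ∀ y ∈ Lay C I (r + 1), r + 1 ≤ (univ.filter fun i => flp y i ∈ Lay C I r).card := by
    intro y hy
    obtain ⟨-, ⟨x, hx, hxy⟩, hC⟩ := Finset.mem_filter.1 hy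
    have h2 : (univ.filter fun i => x i ≠ y i).card = r + 1 := hxy
    rw [← h2]
    refine Finset.card_le_card fun i hi => ?_
    have hi' : x i ≠ y i := (Finset.mem_filter.1 hi).2
    rw [Finset.mem_filter]
    refine ⟨Finset.mem_univ _, ?_⟩
    unfold Lay
    rw [Finset.mem_filter]
    refine ⟨Finset.mem_univ _, ⟨x, hx, ?_⟩, fun x' hx' => ?_⟩
    · have := dist_flp_ne hi'
      omega
    · have := hC x' hx'
      have := dist_flp_ge x' y i
      omega
  have h2 : (r + 1) * (Lay C I (r + 1)).card ≤
      ∑ y ∈ Lay C I (r + 1), (univ.filter fun i => flp y i ∈ Lay C I r).card := by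
    rw [mul_comm, ← smul_eq_mul, ← Finset.sum_const]
    exact Finset.sum_le_sum h1
  refine h2.trans (le_of_eq ?_)
  rw [← Finset.card_sigma, ← Finset.card_sigma]
  refine Finset.card_bij' (fun a _ => ⟨flp a.1 a.2, a.2⟩) (fun a _ => ⟨flp a.1 a.2, a.2⟩) ?_ ?_ ?_ ?_
  · rintro ⟨y, i⟩ h
    simp only [Finset.mem_sigma, Finset.mem_filter, Finset.mem_univ, true_and] at h ⊢
    exact ⟨h.2, by rw [flp_flp]; exact h.1⟩
  · rintro ⟨y, i⟩ h
    simp only [Finset.mem_sigma, Finset.mem_filter, Finset.mem_univ, true_and] at h ⊢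
    exact ⟨h.2, by rw [flp_flp]; exact h.1⟩
  · rintro ⟨y, i⟩ _
    simp only [flp_flp]
  · rintro ⟨y, i⟩ _
    simp only [flp_flp]

/-- the growth of the layers -/
lemma growth {δ : ℝ} {C I : Finset (Fin n → Bool)} (hIC : I ⊆ C)
    (hC : ∀ x ∈ C, ∀ y ∈ C, x ≠ y → δ * n ≤ hammingDist x y) (r : ℕ) :
    ((r : ℝ) + 1) * (Lay C I (r + 1)).card ≤
      ((n : ℝ) - r - δ * n / 2) * (Lay C I r).card + δ * n / 2 * (Uni C I r).card := by
  classical
  have h1 := edges_down C I r
  have h2 : ((r : ℝ) + 1) * (Lay C I (r + 1)).card ≤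
      ∑ y ∈ Lay C I r, ((univ.filter fun i => flp y i ∈ Lay C I (r + 1)).card : ℝ) := by
    exact_mod_cast h1
  refine h2.trans ?_
  -- the outgoing edges
  have hout : ∀ y ∈ Lay C I r, ∀ x ∈ C, hammingDist x y = r →
      (univ.filter fun i => flp y i ∈ Lay C I (r + 1)) ⊆ univ.filter fun i => x i = y i := by
    intro y _ x hx hxy i hi
    rw [Finset.mem_filter] at hi ⊢
    refine ⟨Finset.mem_univ _, ?_⟩
    by_contra hne
    have h3 := (Finset.mem_filter.1 hi.2).2.2 x hx
    have h4 := dist_flp_ne hne
    omega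
  have h3 : ∀ y ∈ Lay C I r, ((univ.filter fun i => flp y i ∈ Lay C I (r + 1)).card : ℝ) ≤
      (n : ℝ) - r - δ * n / 2 + (if y ∈ Uni C I r then δ * n / 2 else 0) := by
    intro y hy
    have hy' := (Finset.mem_filter.1 hy).2
    obtain ⟨⟨x, hx, hxy⟩, -⟩ := hy'
    split_ifs with hU
    · have h4 := Finset.card_le_card (hout y hy x (hIC hx) hxy)
      have h5 := card_eq_sub x y
      have h6 : ((univ.filter fun i => flp y i ∈ Lay C I (r + 1)).card : ℝ) + r ≤ n := by
        exact_mod_cast (by omega :
          (univ.filter fun i => flp y i ∈ Lay C I (r + 1)).card + r ≤ n)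
      linarith
    · have hU2 : ∃ a ∈ C, ∃ b ∈ C, hammingDist a y = r ∧ hammingDist b y = r ∧ a ≠ b := by
        by_contra hcon
        apply hU
        unfold Uni
        rw [Finset.mem_filter]
        refine ⟨hy, fun a ha b hb h4 h5 => ?_⟩
        by_contra hab
        exact hcon ⟨a, ha, b, hb, h4, h5, hab⟩
      obtain ⟨a, ha, b, hb, h4, h5, hab⟩ := hU2
      have h6 : (univ.filter fun i => flp y i ∈ Lay C I (r + 1)) ⊆
          univ.filter fun i => a i = y i ∧ b i = y i := by
        intro i hi
        have h7 := Finset.mem_filter.1 (hout y hy a ha h4 hi)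
        have h8 := Finset.mem_filter.1 (hout y hy b hb h5 hi)
        exact Finset.mem_filter.2 ⟨Finset.mem_univ _, h7.2, h8.2⟩
      have h7 := Finset.card_le_card h6
      have h8 := agree a b y
      rw [h4, h5] at h8
      have h9 : 2 * ((univ.filter fun i => flp y i ∈ Lay C I (r + 1)).card : ℝ) + r + r +
          hammingDist a b ≤ 2 * n := by
        exact_mod_cast (by omega : 2 * (univ.filter fun i => flp y i ∈ Lay C I (r + 1)).card + r + r +
          hammingDist a b ≤ 2 * n)
      have h10 := hC a ha b hb hab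
      linarith
  refine (Finset.sum_le_sum h3).trans (le_of_eq ?_)
  rw [Finset.sum_add_distrib, Finset.sum_const, nsmul_eq_mul, mul_comm]
  congr 1
  rw [← Finset.sum_filter, Finset.sum_const, nsmul_eq_mul, mul_comm]
  congr 2
  have : (Lay C I r).filter (fun y => y ∈ Uni C I r) = Uni C I r := by
    ext y
    rw [Finset.mem_filter]
    exact ⟨fun h => h.2, fun h => ⟨(Finset.mem_filter.1 h).1, h⟩⟩
  rw [this]

lemma weight_tr_ov (z u : Fin n → Bool) : weight (tr z u) + 2 * ov z u = weight z + weight u := by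
  unfold weight ov
  rw [Finset.card_filter, Finset.card_filter, Finset.card_filter, Finset.card_filter,
    Finset.mul_sum, ← Finset.sum_add_distrib, ← Finset.sum_add_distrib]
  refine Finset.sum_congr rfl fun i _ => ?_
  unfold tr
  cases z i <;> cases u i <;> simp

/-- the differences of the code words with `x` -/
def Df (C : Finset (Fin n → Bool)) (x : Fin n → Bool) : Finset (Fin n → Bool) :=
  (C.erase x).image (tr x)

lemma mem_Err_Df {C : Finset (Fin n → Bool)} {x y : Fin n → Bool} :
    tr x y ∈ Err (Df C x) ↔ ∃ x' ∈ C, x' ≠ x ∧ hammingDist x' y ≤ hammingDist x y := by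
  rw [mem_Err]
  have key : ∀ x', hammingDist x' y + 2 * ov (tr x y) (tr x x') =
      hammingDist x y + weight (tr x x') := by
    intro x'
    have h := weight_tr_ov (tr x y) (tr x x')
    have h2 : tr (tr x y) (tr x x') = tr x' y := by
      funext i
      unfold tr
      cases x i <;> cases y i <;> cases x' i <;> rfl
    rw [h2, weight_tr, weight_tr x y] at h
    exact h
  constructor
  · rintro ⟨u, hu, h⟩
    obtain ⟨x', hx', rfl⟩ := Finset.mem_image.1 hu
    rw [Finset.mem_erase] at hx'
    refine ⟨x', hx'.2, hx'.1, ?_⟩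
    have := key x'
    omega
  · rintro ⟨x', hx', hne, h⟩
    refine ⟨tr x x', Finset.mem_image_of_mem _ (Finset.mem_erase.2 ⟨hne, hx'⟩), ?_⟩
    have := key x'
    omega

/-- the number of the words with only one nearest word of `C` -/
lemma uni_card {C I : Finset (Fin n → Bool)} (hIC : I ⊆ C) (r : ℕ) {B : ℝ}
    (hB : ∀ x ∈ I, ((univ.filter fun z : Fin n → Bool => weight z = r ∧ z ∉ Err (Df C x)).card : ℝ)
      ≤ B) : ((Uni C I r).card : ℝ) ≤ I.card * B := by
  classical
  have hsub : Uni C I r ⊆ I.biUnion fun x =>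
      (univ.filter fun z : Fin n → Bool => weight z = r ∧ z ∉ Err (Df C x)).image (tr x) := by
    intro y hy
    unfold Uni at hy
    rw [Finset.mem_filter] at hy
    obtain ⟨hy1, hy2⟩ := hy
    unfold Lay at hy1
    rw [Finset.mem_filter] at hy1
    obtain ⟨-, ⟨x, hx, hxy⟩, hyC⟩ := hy1
    rw [Finset.mem_biUnion]
    refine ⟨x, hx, Finset.mem_image.2 ⟨tr x y, ?_, tr_tr x y⟩⟩
    rw [Finset.mem_filter]
    refine ⟨Finset.mem_univ _, ?_, ?_⟩
    · rw [weight_tr]; exact hxy
    · rw [mem_Err_Df]
      rintro ⟨x', hx', hne, h⟩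
      have h3 := hyC x' hx'
      exact hne (hy2 x (hIC hx) x' hx' hxy (by omega)).symm
  have h1 := (Finset.card_le_card hsub).trans Finset.card_biUnion_le
  have h2 : ((Uni C I r).card : ℝ) ≤ ∑ x ∈ I, (((univ.filter fun z : Fin n → Bool =>
      weight z = r ∧ z ∉ Err (Df C x)).image (tr x)).card : ℝ) := by exact_mod_cast h1
  refine h2.trans ?_
  rw [← nsmul_eq_mul, ← Finset.sum_const]
  refine Finset.sum_le_sum fun x hx => ?_
  refine le_trans ?_ (hB x hx)
  exact_mod_cast Finset.card_image_le

end

end Pool.Agent.H2x430
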