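import Pool.Agent.H2x430.Iter

/-!
# H2x430: the words near `I` lie near the layers, up to few exceptions
-/

set_option autoImplicit false

namespace Pool.Agent.H2x430

open Finset
open Pool.Agent.Results.MP_0430e4_lc.ConstantWeightCriterion (weight tr sum_prod pow_lower
  weight_tr tr_tr H H_eq two_rpow volume weight_le prod_ite_eq nbhd mem_nbhd)

/-- heavy words have small probability -/
theorem high {q : ℝ} (h0 : 0 ≤ q) (h1 : q ≤ 1) {n : ℕ} (K : ℝ) (B : Finset (Fin n → Bool))
    (hB : ∀ w ∈ B, K ≤ weight w) :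
    ∑ w ∈ B, mu q w ≤ Real.exp (q * n - K * Real.log 2) := by
  classical
  have e1 : ∑ w : Fin n → Bool, ∏ i, ((if w i = true then q else 1 - q) *
      (if w i = true then (2 : ℝ) else 1)) = (1 + q) ^ n := by
    have h := sum_prod (n := n) (fun _ b => (if b = true then q else 1 - q) *
      (if b = true then (2 : ℝ) else 1))
    rw [h]
    simp
    ring
  have e3 : (1 + q) ^ n ≤ Real.exp (q * n) := by
    have h2 : 1 + q ≤ Real.exp q := by
      have := Real.add_one_le_exp q
      linarith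
    calc (1 + q) ^ n ≤ Real.exp q ^ n := pow_le_pow_left₀ (by linarith) h2 _
      _ = _ := by rw [← Real.exp_nat_mul]; congr 1; ring
  have e4 : ∀ w ∈ B, Real.exp (K * Real.log 2) * mu q w ≤
      ∏ i, ((if w i = true then q else 1 - q) * (if w i = true then (2 : ℝ) else 1)) := by
    intro w hw
    rw [Finset.prod_mul_distrib, mul_comm]
    refine mul_le_mul_of_nonneg_left ?_ (mu_nonneg h0 h1 w)
    rw [prod_ite_eq (fun i => w i = true), one_pow, mul_one]
    have e6 : (2 : ℝ) ^ (univ.filter fun i => w i = true).card =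
        Real.exp ((weight w : ℝ) * Real.log 2) := by
      rw [mul_comm, Real.exp_mul, Real.exp_log (by norm_num), Real.rpow_natCast]
      rfl
    rw [e6]
    apply Real.exp_le_exp.2
    have h3 : 0 ≤ Real.log 2 := Real.log_nonneg (by norm_num)
    exact mul_le_mul_of_nonneg_right (hB w hw) h3
  have e5 : Real.exp (K * Real.log 2) * ∑ w ∈ B, mu q w ≤ Real.exp (q * n) := by
    rw [Finset.mul_sum]
    refine (Finset.sum_le_sum e4).trans (le_trans ?_ (e1.le.trans e3))
    refine Finset.sum_le_sum_of_subset_of_nonneg (Finset.subset_univ _) fun w _ _ =>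
      Finset.prod_nonneg fun i _ => ?_
    split_ifs <;> linarith
  rw [Real.exp_sub, le_div_iff₀ (Real.exp_pos _), mul_comm]
  exact e5

/-- a small set with many elements in each of exponentially many large sets -/
lemma choose_w {δ κ τ : ℝ} (hκ : 0 < κ) (hτ1 : τ ≤ 1) (hδ1 : δ ≤ 1)
    (hτ : τ * δ = 16 * κ) (hτ0 : 0 < τ) {n : ℕ} (hn : 1 ≤ κ * n) (D : Finset (Finset (Fin n)))
    (hD : (D.card : ℝ) ≤ (2 : ℝ) ^ (κ * n)) (hD2 : ∀ S ∈ D, 3 * δ * n / 8 ≤ S.card) :
    ∃ w : Fin n → Bool, (weight w : ℝ) ≤ 4 * τ * n ∧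
      ∀ S ∈ D, κ * n ≤ (S.filter fun i => w i = true).card := by
  classical
  by_contra hcon
  push Not at hcon
  have hn0 : (0 : ℝ) ≤ n := Nat.cast_nonneg n
  have hlog1 : 0.69 ≤ Real.log 2 := by
    have := Real.log_two_gt_d9
    linarith
  have hlog2 : Real.log 2 ≤ 0.7 := by
    have := Real.log_two_lt_d9
    linarith
  have hκτ : κ ≤ τ := by nlinarith
  have hτn : 1 ≤ τ * n := by nlinarith [mul_le_mul_of_nonneg_right hκτ hn0]
  -- the exceptional sets
  let B0 : Finset (Fin n → Bool) := univ.filter fun w => 4 * τ * n < weight w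
  let B : Finset (Fin n) → Finset (Fin n → Bool) := fun S => univ.filter fun w =>
    ((S.filter fun i => w i = true).card : ℝ) < κ * n
  have hmu : ∀ w : Fin n → Bool, 0 ≤ mu τ w := fun w => mu_nonneg hτ0.le hτ1 w
  have h1 : ∀ w : Fin n → Bool, mu τ w ≤ (if w ∈ B0 then mu τ w else 0) +
      ∑ S ∈ D, (if w ∈ B S then mu τ w else 0) := by
    intro w
    have hs : 0 ≤ ∑ S ∈ D, (if w ∈ B S then mu τ w else 0) :=
      Finset.sum_nonneg fun S _ => by split_ifs <;> simp [hmu w]
    by_cases hw : (weight w : ℝ) ≤ 4 * τ * n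
    · obtain ⟨S, hS, hSw⟩ := hcon w hw
      have h2 : (if w ∈ B S then mu τ w else 0) ≤ ∑ S ∈ D, (if w ∈ B S then mu τ w else 0) :=
        Finset.single_le_sum (f := fun S => if w ∈ B S then mu τ w else 0)
          (fun S _ => by split_ifs <;> simp [hmu w]) hS
      rw [if_pos (Finset.mem_filter.2 ⟨Finset.mem_univ _, hSw⟩ : w ∈ B S)] at h2
      have h3 : 0 ≤ (if w ∈ B0 then mu τ w else 0) := by split_ifs <;> simp [hmu w]
      linarith
    · rw [if_pos (Finset.mem_filter.2 ⟨Finset.mem_univ _, not_le.1 hw⟩ : w ∈ B0)]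
      linarith
  have h2 : (1 : ℝ) ≤ ∑ w ∈ B0, mu τ w + ∑ S ∈ D, ∑ w ∈ B S, mu τ w := by
    calc (1 : ℝ) = ∑ w : Fin n → Bool, mu τ w := (sum_mu τ n).symm
      _ ≤ ∑ w : Fin n → Bool, ((if w ∈ B0 then mu τ w else 0) +
          ∑ S ∈ D, (if w ∈ B S then mu τ w else 0)) := Finset.sum_le_sum fun w _ => h1 w
      _ = _ := by
          rw [Finset.sum_add_distrib, Finset.sum_comm, Finset.sum_ite_mem, Finset.univ_inter]
          congr 1
          refine Finset.sum_congr rfl fun S _ => ?_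
          rw [Finset.sum_ite_mem, Finset.univ_inter]
  have h3 : ∑ w ∈ B0, mu τ w ≤ Real.exp (-1) := by
    refine (high hτ0.le hτ1 (4 * τ * n) B0 fun w hw => (Finset.mem_filter.1 hw).2.le).trans ?_
    apply Real.exp_le_exp.2
    nlinarith
  have h4 : ∀ S ∈ D, ∑ w ∈ B S, mu τ w ≤ Real.exp (κ * n * Real.log 2 - 3 * (κ * n)) := by
    intro S hS
    refine (low hτ0.le hτ1 S (κ * n) (B S) fun w hw => (Finset.mem_filter.1 hw).2.le).trans ?_
    apply Real.exp_le_exp.2
    have h5 := mul_le_mul_of_nonneg_left (hD2 S hS) hτ0.le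
    have h6 : τ * (3 * δ * n / 8) = 6 * (κ * n) := by
      calc τ * (3 * δ * n / 8) = (τ * δ) * (3 * n / 8) := by ring
        _ = _ := by rw [hτ]; ring
    linarith
  have h5 : ∑ S ∈ D, ∑ w ∈ B S, mu τ w ≤ Real.exp (-1) := by
    refine (Finset.sum_le_sum h4).trans ?_
    rw [Finset.sum_const, nsmul_eq_mul]
    calc (D.card : ℝ) * Real.exp (κ * n * Real.log 2 - 3 * (κ * n))
        ≤ (2 : ℝ) ^ (κ * n) * Real.exp (κ * n * Real.log 2 - 3 * (κ * n)) :=
          mul_le_mul_of_nonneg_right hD (Real.exp_pos _).le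
      _ = Real.exp (Real.log 2 * (κ * n) + (κ * n * Real.log 2 - 3 * (κ * n))) := by
          rw [two_rpow, ← Real.exp_add]
      _ ≤ Real.exp (-1) := by
          apply Real.exp_le_exp.2
          nlinarith
  have h6 : Real.exp (-1) < 1 / 2 := by
    rw [Real.exp_neg, ← one_div]
    apply one_div_lt_one_div_of_lt (by norm_num)
    have := Real.add_one_lt_exp (x := 1) (by norm_num)
    linarith
  linarith

/-- the elements of `D` for a competitor -/
lemma dist_parts {n : ℕ} (x x' y : Fin n → Bool) :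
    2 * (univ.filter fun i => x i ≠ y i ∧ x' i = y i).card + hammingDist x' y =
      hammingDist x y + hammingDist x x' := by
  rw [dist_eq_sum, dist_eq_sum, dist_eq_sum, Finset.card_filter, Finset.mul_sum,
    ← Finset.sum_add_distrib, ← Finset.sum_add_distrib]
  refine Finset.sum_congr rfl fun i _ => ?_
  cases x i <;> cases y i <;> cases x' i <;> simp

/-- moving towards `x` -/
lemma move {n : ℕ} (x y w : Fin n → Bool) :
    hammingDist x (tr (fun i => w i && !(x i == y i)) y) +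
      weight (fun i => w i && !(x i == y i)) = hammingDist x y := by
  rw [dist_eq_sum, dist_eq_sum]
  unfold weight tr
  rw [Finset.card_filter, ← Finset.sum_add_distrib]
  refine Finset.sum_congr rfl fun i _ => ?_
  rcases hx : x i with _ | _ <;> rcases hy : y i with _ | _ <;> rcases hw : w i with _ | _ <;>
    simp [hx, hy, hw]

lemma move' {n : ℕ} (x x' y w : Fin n → Bool) :
    hammingDist x' (tr (fun i => w i && !(x i == y i)) y) +
      weight (fun i => w i && !(x i == y i)) = hammingDist x' y +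
      2 * ((univ.filter fun i => x i ≠ y i ∧ x' i = y i).filter fun i => w i = true).card := by
  rw [dist_eq_sum, dist_eq_sum]
  unfold weight tr
  rw [Finset.filter_filter, Finset.card_filter, Finset.card_filter, Finset.mul_sum,
    ← Finset.sum_add_distrib, ← Finset.sum_add_distrib]
  refine Finset.sum_congr rfl fun i _ => ?_
  rcases hx : x i with _ | _ <;> rcases hy : y i with _ | _ <;> rcases hw : w i with _ | _ <;>
    rcases hx' : x' i with _ | _ <;> simp [hx, hy, hw, hx']

lemma weight_and_le {n : ℕ} (w v : Fin n → Bool) : weight (fun i => w i && v i) ≤ weight w := by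
  unfold weight
  refine Finset.card_le_card fun i hi => ?_
  simp only [Finset.mem_filter, Finset.mem_univ, true_and, Bool.and_eq_true] at hi ⊢
  exact hi.1

/-- **The words near `I` are near the layers.** -/
theorem near {δ κ τ : ℝ} (hκ : 0 < κ) (hκδ : 4 * κ ≤ δ) (hτ1 : τ ≤ 1) (hδ1 : δ ≤ 1)
    (hτ : τ * δ = 16 * κ) (hτ0 : 0 < τ) {n : ℕ} (hn : 1 ≤ κ * n) {C I : Finset (Fin n → Bool)}
    (hIC : I ⊆ C) (hC : ∀ x ∈ C, ∀ y ∈ C, x ≠ y → δ * n ≤ hammingDist x y) (y : Fin n → Bool)
    (hy : ∃ x ∈ I, (hammingDist x y : ℝ) ≤ δ * n)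
    (hfar : ∀ x ∈ C, (δ - κ) * n ≤ hammingDist x y)
    (hlist : ((C.filter fun x => (hammingDist x y : ℝ) ≤ δ * n).card : ℝ) ≤ (2 : ℝ) ^ (κ * n)) :
    ∃ w : Fin n → Bool, (weight w : ℝ) ≤ 4 * τ * n ∧ ∃ r : ℕ, (δ - κ - 4 * τ) * n ≤ r ∧
      (r : ℝ) ≤ δ * n ∧ tr w y ∈ Lay C I r := by
  classical
  obtain ⟨x, hx, hxy⟩ := hy
  have hn0 : (0 : ℝ) ≤ n := Nat.cast_nonneg n
  have hxC := hIC hx
  let S : (Fin n → Bool) → Finset (Fin n) := fun x' => univ.filter fun i => x i ≠ y i ∧ x' i = y i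
  obtain ⟨w, hw1, hw2⟩ := choose_w hκ hτ1 hδ1 hτ hτ0 hn
    (((C.filter fun x' => (hammingDist x' y : ℝ) ≤ δ * n).erase x).image S) (by
      refine le_trans ?_ hlist
      have h1 := Finset.card_image_le
        (s := (C.filter fun x' => (hammingDist x' y : ℝ) ≤ δ * n).erase x) (f := S)
      have h2 := Finset.card_erase_le (s := C.filter fun x' => (hammingDist x' y : ℝ) ≤ δ * n)
        (a := x)
      exact_mod_cast h1.trans h2) (by
      intro D hD
      obtain ⟨x', hx', rfl⟩ := Finset.mem_image.1 hD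
      rw [Finset.mem_erase, Finset.mem_filter] at hx'
      obtain ⟨hne, hx'C, hx'd⟩ := hx'
      have h1 : 2 * ((S x').card : ℝ) + hammingDist x' y = hammingDist x y + hammingDist x x' := by
        exact_mod_cast dist_parts x x' y
      have h2 := hC x hxC x' hx'C (Ne.symm hne)
      have h3 := hfar x hxC
      have h4 := mul_le_mul_of_nonneg_right hκδ hn0
      linarith)
  obtain ⟨w', hw'⟩ : ∃ w' : Fin n → Bool, w' = fun i => w i && !(x i == y i) := ⟨_, rfl⟩
  have hww : weight w' ≤ weight w := by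
    rw [hw']
    exact weight_and_le w _
  have hwwR : (weight w' : ℝ) ≤ weight w := by exact_mod_cast hww
  have hm1 : (hammingDist x (tr w' y) : ℝ) + weight w' = hammingDist x y := by
    rw [hw']
    exact_mod_cast move x y w
  refine ⟨w', hwwR.trans hw1, hammingDist x (tr w' y), ?_, ?_, ?_⟩
  · have h3 := hfar x hxC
    linarith
  · have : (0 : ℝ) ≤ weight w' := Nat.cast_nonneg _
    linarith
  · unfold Lay
    rw [Finset.mem_filter]
    refine ⟨Finset.mem_univ _, ⟨x, hx, rfl⟩, fun x' hx' => ?_⟩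
    by_cases hne : x' = x
    · rw [hne]
    · have hm2 : (hammingDist x' (tr w' y) : ℝ) + weight w' = hammingDist x' y +
          2 * (((S x').filter fun i => w i = true).card : ℝ) := by
        rw [hw']
        exact_mod_cast move' x x' y w
      have : (hammingDist x (tr w' y) : ℝ) ≤ hammingDist x' (tr w' y) := by
        by_cases hd : (hammingDist x' y : ℝ) ≤ δ * n
        · have h5 := hw2 (S x') (Finset.mem_image_of_mem _ (Finset.mem_erase.2 ⟨hne,
            Finset.mem_filter.2 ⟨hx', hd⟩⟩))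
          have h6 := hfar x' hx'
          have h7 : 0 ≤ κ * n := mul_nonneg hκ.le hn0
          linarith
        · push Not at hd
          have h8 : (0 : ℝ) ≤ ((S x').filter fun i => w i = true).card := Nat.cast_nonneg _
          linarith
      exact_mod_cast this

/-- the number of the words near the words of `C` -/
lemma card_near {p : ℝ} (hp0 : 0 < p) (hp : p ≤ 1 / 2) {n : ℕ} (C : Finset (Fin n → Bool)) :
    ((univ.filter fun y : Fin n → Bool => ∃ x ∈ C, (hammingDist x y : ℝ) ≤ p * n).card : ℝ) ≤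
      C.card * (2 : ℝ) ^ (H p * n) := by
  classical
  have hsub : (univ.filter fun y : Fin n → Bool => ∃ x ∈ C, (hammingDist x y : ℝ) ≤ p * n) ⊆
      C.biUnion fun x => (univ.filter fun z : Fin n → Bool => (weight z : ℝ) ≤ p * n).image (tr x) := by
    intro y hy
    obtain ⟨-, x, hx, hxy⟩ := Finset.mem_filter.1 hy
    rw [Finset.mem_biUnion]
    refine ⟨x, hx, Finset.mem_image.2 ⟨tr x y, ?_, tr_tr x y⟩⟩
    rw [Finset.mem_filter]
    refine ⟨Finset.mem_univ _, ?_⟩
    rw [weight_tr]; exact hxy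
  have h1 := (Finset.card_le_card hsub).trans Finset.card_biUnion_le
  have h2 : ((univ.filter fun y : Fin n → Bool => ∃ x ∈ C, (hammingDist x y : ℝ) ≤ p * n).card : ℝ) ≤
      ∑ x ∈ C, (((univ.filter fun z : Fin n → Bool => (weight z : ℝ) ≤ p * n).image
        (tr x)).card : ℝ) := by exact_mod_cast h1
  refine h2.trans ?_
  rw [← nsmul_eq_mul, ← Finset.sum_const]
  refine Finset.sum_le_sum fun x _ => ?_
  refine le_trans ?_ (volume hp0 hp n)
  exact_mod_cast Finset.card_image_le

/-- the number of the words with many words of `C` nearby -/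
lemma card_many {p : ℝ} (hp0 : 0 < p) (hp : p ≤ 1 / 2) {n : ℕ} (C : Finset (Fin n → Bool)) (a : ℝ)
    (ha : 0 < a) :
    ((univ.filter fun y : Fin n → Bool =>
      a < ((C.filter fun x => (hammingDist x y : ℝ) ≤ p * n).card : ℝ)).card : ℝ) ≤
      C.card * (2 : ℝ) ^ (H p * n) / a := by
  classical
  rw [le_div_iff₀ ha]
  have h1 : ((univ.filter fun y : Fin n → Bool =>
      a < ((C.filter fun x => (hammingDist x y : ℝ) ≤ p * n).card : ℝ)).card : ℝ) * a ≤
      ∑ y : Fin n → Bool, ((C.filter fun x => (hammingDist x y : ℝ) ≤ p * n).card : ℝ) := by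
    rw [← nsmul_eq_mul, ← Finset.sum_const]
    calc ∑ _y ∈ univ.filter (fun y : Fin n → Bool =>
          a < ((C.filter fun x => (hammingDist x y : ℝ) ≤ p * n).card : ℝ)), a
        ≤ ∑ y ∈ univ.filter (fun y : Fin n → Bool =>
          a < ((C.filter fun x => (hammingDist x y : ℝ) ≤ p * n).card : ℝ)),
          ((C.filter fun x => (hammingDist x y : ℝ) ≤ p * n).card : ℝ) :=
          Finset.sum_le_sum fun y hy => (Finset.mem_filter.1 hy).2.le
      _ ≤ _ := Finset.sum_le_sum_of_subset_of_nonneg (Finset.subset_univ _)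
          fun y _ _ => Nat.cast_nonneg _
  refine h1.trans ?_
  have h2 : ∑ y : Fin n → Bool, ((C.filter fun x => (hammingDist x y : ℝ) ≤ p * n).card : ℝ) =
      ∑ x ∈ C, ((univ.filter fun y : Fin n → Bool => (hammingDist x y : ℝ) ≤ p * n).card : ℝ) := by
    have : ∑ y : Fin n → Bool, (C.filter fun x => (hammingDist x y : ℝ) ≤ p * n).card =
      ∑ x ∈ C, (univ.filter fun y : Fin n → Bool => (hammingDist x y : ℝ) ≤ p * n).card := by
      simp_rw [Finset.card_filter]
      exact Finset.sum_comm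
    exact_mod_cast this
  rw [h2, ← nsmul_eq_mul, ← Finset.sum_const]
  refine Finset.sum_le_sum fun x _ => ?_
  have h3 := card_near hp0 hp ({x} : Finset (Fin n → Bool))
  rw [Finset.card_singleton] at h3
  simpa using h3

/-- **The number of the words near `I`.** -/
theorem card_nbhd {δ κ τ M : ℝ} (hκ : 0 < κ) (hκδ : 4 * κ ≤ δ) (hδ1 : δ ≤ 1 / 2)
    (hτ : τ * δ = 16 * κ) (hτ0 : 0 < τ) (hτ8 : 4 * τ ≤ 1 / 2) (hM : 0 ≤ M)
    {n : ℕ} (hn : 1 ≤ κ * n) {C I : Finset (Fin n → Bool)}
    (hIC : I ⊆ C) (hC : ∀ x ∈ C, ∀ y ∈ C, x ≠ y → δ * n ≤ hammingDist x y)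
    (hLay : ∀ r : ℕ, (δ - κ - 4 * τ) * n ≤ r → (r : ℝ) ≤ δ * n → ((Lay C I r).card : ℝ) ≤ M) :
    ((nbhd ⌈δ * n⌉₊ I).card : ℝ) ≤ C.card * (2 : ℝ) ^ (H (δ - κ) * n) +
      C.card * (2 : ℝ) ^ (H δ * n) / (2 : ℝ) ^ (κ * n) +
      (n + 1) * (M * (2 : ℝ) ^ (H (4 * τ) * n)) := by
  classical
  have hδ0 : 0 < δ := by linarith
  obtain ⟨R, hR⟩ : ∃ R : Finset ℕ, R = (range (n + 1)).filter fun r : ℕ =>
    (δ - κ - 4 * τ) * n ≤ r ∧ (r : ℝ) ≤ δ * n := ⟨_, rfl⟩
  obtain ⟨Bw, hBw⟩ : ∃ Bw : Finset (Fin n → Bool), Bw = univ.filter fun w =>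
    (weight w : ℝ) ≤ 4 * τ * n := ⟨_, rfl⟩
  have hsub : nbhd ⌈δ * n⌉₊ I ⊆
      (univ.filter fun y : Fin n → Bool => ∃ x ∈ C, (hammingDist x y : ℝ) ≤ (δ - κ) * n) ∪
      (univ.filter fun y : Fin n → Bool =>
        (2 : ℝ) ^ (κ * n) < ((C.filter fun x => (hammingDist x y : ℝ) ≤ δ * n).card : ℝ)) ∪
      R.biUnion fun r => (Bw ×ˢ Lay C I r).image fun a => tr a.1 a.2 := by
    intro y hy
    obtain ⟨x, hx, hxy⟩ := mem_nbhd.1 hy
    have hxy' : (hammingDist x y : ℝ) ≤ δ * n := (Nat.lt_ceil.1 hxy).le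
    rw [Finset.mem_union, Finset.mem_union]
    by_cases h1 : ∃ x ∈ C, (hammingDist x y : ℝ) ≤ (δ - κ) * n
    · exact Or.inl (Or.inl (Finset.mem_filter.2 ⟨Finset.mem_univ _, h1⟩))
    · by_cases h2 : (2 : ℝ) ^ (κ * n) < ((C.filter fun x => (hammingDist x y : ℝ) ≤ δ * n).card : ℝ)
      · exact Or.inl (Or.inr (Finset.mem_filter.2 ⟨Finset.mem_univ _, h2⟩))
      · right
        push Not at h1 h2
        obtain ⟨w, hw, r, hr1, hr2, hL⟩ := near hκ hκδ (by linarith) (by linarith) hτ hτ0 hn hIC hC y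
          ⟨x, hx, hxy'⟩ (fun x hx => (h1 x hx).le) h2
        rw [Finset.mem_biUnion]
        refine ⟨r, ?_, ?_⟩
        · rw [hR, Finset.mem_filter, Finset.mem_range]
          refine ⟨?_, hr1, hr2⟩
          have hn0 : (0 : ℝ) ≤ n := Nat.cast_nonneg n
          have h3 : (r : ℝ) ≤ n := by nlinarith
          have h4 : r ≤ n := by exact_mod_cast h3
          omega
        · rw [Finset.mem_image]
          refine ⟨(w, tr w y), ?_, tr_tr w y⟩
          rw [Finset.mem_product, hBw, Finset.mem_filter]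
          exact ⟨⟨Finset.mem_univ _, hw⟩, hL⟩
  have h1 := (Finset.card_le_card hsub).trans ((Finset.card_union_le _ _).trans
    (Nat.add_le_add_right (Finset.card_union_le _ _) _))
  have h2 : ((nbhd ⌈δ * n⌉₊ I).card : ℝ) ≤
      ((univ.filter fun y : Fin n → Bool => ∃ x ∈ C, (hammingDist x y : ℝ) ≤ (δ - κ) * n).card : ℝ) +
      ((univ.filter fun y : Fin n → Bool =>
        (2 : ℝ) ^ (κ * n) < ((C.filter fun x => (hammingDist x y : ℝ) ≤ δ * n).card : ℝ)).card : ℝ) +
      ((R.biUnion fun r => (Bw ×ˢ Lay C I r).image fun a => tr a.1 a.2).card : ℝ) := by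
    exact_mod_cast h1
  refine h2.trans (add_le_add (add_le_add (card_near (by linarith) (by linarith) C)
    (card_many hδ0 hδ1 C _ (by positivity))) ?_)
  have hBwc : (Bw.card : ℝ) ≤ (2 : ℝ) ^ (H (4 * τ) * n) := by
    rw [hBw]
    exact volume (by linarith) hτ8 n
  have hRc : (R.card : ℝ) ≤ n + 1 := by
    have : R.card ≤ n + 1 := by
      rw [hR]
      refine (Finset.card_filter_le _ _).trans ?_
      rw [Finset.card_range]
    exact_mod_cast this
  have h3 : ((R.biUnion fun r => (Bw ×ˢ Lay C I r).image fun a => tr a.1 a.2).card : ℝ) ≤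
      ∑ r ∈ R, (((Bw ×ˢ Lay C I r).image fun a => tr a.1 a.2).card : ℝ) := by
    exact_mod_cast Finset.card_biUnion_le
  refine h3.trans ?_
  calc ∑ r ∈ R, (((Bw ×ˢ Lay C I r).image fun a => tr a.1 a.2).card : ℝ)
      ≤ ∑ _r ∈ R, M * (2 : ℝ) ^ (H (4 * τ) * n) := by
        refine Finset.sum_le_sum fun r hr => ?_
        have h4 : (((Bw ×ˢ Lay C I r).image fun a => tr a.1 a.2).card : ℝ) ≤
            Bw.card * (Lay C I r).card := by
          have := Finset.card_image_le (s := Bw ×ˢ Lay C I r)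
            (f := fun a : (Fin n → Bool) × (Fin n → Bool) => tr a.1 a.2)
          rw [Finset.card_product] at this
          exact_mod_cast this
        rw [hR, Finset.mem_filter] at hr
        have h5 := hLay r hr.2.1 hr.2.2
        have h6 : (0 : ℝ) ≤ (Lay C I r).card := Nat.cast_nonneg _
        calc _ ≤ (Bw.card : ℝ) * (Lay C I r).card := h4
          _ ≤ (2 : ℝ) ^ (H (4 * τ) * n) * M := mul_le_mul hBwc h5 h6 (by positivity)
          _ = _ := mul_comm _ _
    _ = R.card * (M * (2 : ℝ) ^ (H (4 * τ) * n)) := by rw [Finset.sum_const, nsmul_eq_mul]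
    _ ≤ _ := mul_le_mul_of_nonneg_right hRc (by positivity)

end Pool.Agent.H2x430
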