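import Pool.Agent.H2x430.Final

/-!
# The Gilbert–Varshamov bound is tight at `δ` iff codes of relative distance `δ` correct random errors

`A(n, d)` is the largest size of a binary code of length `n` and minimum distance `d`, and
`R(δ) = limsup (1/n) log₂ A(n, ⌈δ n⌉)`.  A code of relative distance `δ` corrects every pattern of
fewer than `δ n / 2` errors.  We show that the question whether `R(δ) = 1 - H₂(δ)` is the question
whether all such codes correct *random* errors of every rate `p < δ`, twice as many: if the
Gilbert–Varshamov bound is tight, then for every `p < δ` all binary codes of length `n` and minimum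
distance at least `δ n` have on the binary symmetric channel with crossover probability `p` an
exponentially small error probability, uniformly over the codes; and if for every `p < δ` the error
probability is merely bounded away from `1`, then the Gilbert–Varshamov bound is tight.

Proof of the first part.  Suppose that a code `C` with minimum distance `d ≥ δ n` has error
probability above `2^(-c n)` at rate `p`.  By a concentration argument (an inequality of Talagrand
type on the cube) the error probability is close to `1` at a slightly larger rate `p' < δ`.  Hence
for many codewords `x` the codewords around `x` of some relative distance `ω` cover most of the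
words at distance about `p' n` from `x`, and one finds many codewords in a small part of the space
with small neighbourhoods, which is not possible when the Gilbert–Varshamov bound is tight, by an
averaging argument of Elias and Bassalygo type.
-/

set_option autoImplicit false

open Filter Finset

namespace Pool.Agent.H2x430.RandomErrors

/-- `A(n,d)`: the largest size of a binary code of length `n` with minimum distance at least `d`. -/
noncomputable def A (n d : ℕ) : ℕ :=
  sSup {k | ∃ C : Finset (Fin n → Bool),
    (∀ x ∈ C, ∀ y ∈ C, x ≠ y → d ≤ hammingDist x y) ∧ C.card = k}

/-- The asymptotic rate `R(δ) = limsup (1/n) log₂ A(n, ⌈δ n⌉)`. -/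
noncomputable def R (δ : ℝ) : ℝ :=
  limsup (fun n : ℕ => Real.logb 2 (A n ⌈δ * n⌉₊) / n) atTop

/-- The binary entropy function `H₂(x) = - x log₂ x - (1 - x) log₂ (1 - x)`. -/
noncomputable def H (x : ℝ) : ℝ := -x * Real.logb 2 x - (1 - x) * Real.logb 2 (1 - x)

/-- The error probability of the decoder `D` for the code `C` on the binary symmetric channel with
crossover probability `p`: a uniformly random codeword `x ∈ C` is sent, each bit is flipped
independently with probability `p`, and the received word `y` is decoded as `D y`; it is the
probability that `D y ≠ x`. -/
noncomputable def errorProb {n : ℕ} (p : ℝ) (C : Finset (Fin n → Bool))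
    (D : (Fin n → Bool) → (Fin n → Bool)) : ℝ :=
  (∑ x ∈ C, ∑ y ∈ univ.filter (fun y => D y ≠ x),
    p ^ hammingDist x y * (1 - p) ^ (n - hammingDist x y)) / C.card

/-- Every nonempty binary code of length `n` and minimum distance at least `d` has a decoder with
error probability at most `ε` on the binary symmetric channel with crossover probability `p`. -/
def AllCorrect (p : ℝ) (n d : ℕ) (ε : ℝ) : Prop :=
  ∀ C : Finset (Fin n → Bool), C.Nonempty →
    (∀ x ∈ C, ∀ y ∈ C, x ≠ y → d ≤ hammingDist x y) →
    ∃ D : (Fin n → Bool) → (Fin n → Bool), errorProb p C D ≤ ε

/-- For `0 < δ < 1/2` the following are equivalent: (1) the Gilbert–Varshamov bound is tight at `δ`;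
(2) for every `p < δ` there is `c > 0` such that for all large `n` every code of length `n` and
minimum distance at least `δ n` corrects random errors of rate `p` with error probability at most
`2^(-c n)`; (3) for every `p < δ` there is `η < 1` such that they do so with error probability at
most `η`. -/
theorem result (δ : ℝ) (h0 : 0 < δ) (h1 : δ < 1 / 2) :
    [R δ = 1 - H δ,
      ∀ p : ℝ, 0 < p → p < δ → ∃ c : ℝ, 0 < c ∧
        ∀ᶠ n : ℕ in atTop, AllCorrect p n ⌈δ * n⌉₊ ((2 : ℝ) ^ (-(c * n))),
      ∀ p : ℝ, 0 < p → p < δ → ∃ η : ℝ, η < 1 ∧
        ∀ᶠ n : ℕ in atTop, AllCorrect p n ⌈δ * n⌉₊ η].TFAE :=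
  Pool.Agent.H2x430.upper h0 h1

end Pool.Agent.H2x430.RandomErrors
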