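import Mathlib

/-!
# H2x430: an inequality of Talagrand for the distance from a set, on the cube with a product measure
-/

set_option autoImplicit false

namespace Pool.Agent.H2x430

open Finset

/-- the product weight -/
noncomputable def mu (p : ℝ) {n : ℕ} (z : Fin n → Bool) : ℝ := ∏ i, (if z i = true then p else 1 - p)

lemma mu_nonneg {p : ℝ} (h0 : 0 ≤ p) (h1 : p ≤ 1) {n : ℕ} (z : Fin n → Bool) : 0 ≤ mu p z :=
  Finset.prod_nonneg fun i _ => by split_ifs <;> linarith

lemma sum_cons {n : ℕ} (F : (Fin (n + 1) → Bool) → ℝ) :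
    ∑ z, F z = ∑ z : Fin n → Bool, F (Fin.cons false z) + ∑ z : Fin n → Bool, F (Fin.cons true z) := by
  have h := Equiv.sum_comp (Fin.consEquiv fun _ : Fin (n + 1) => Bool) F
  rw [← h, Fintype.sum_prod_type, Fintype.sum_bool, add_comm]
  rfl

lemma mu_cons (p : ℝ) {n : ℕ} (b : Bool) (z : Fin n → Bool) :
    mu p (Fin.cons b z : Fin (n + 1) → Bool) = (if b = true then p else 1 - p) * mu p z := by
  unfold mu
  rw [Fin.prod_univ_succ]
  simp

lemma sum_mu (p : ℝ) (n : ℕ) : ∑ z : Fin n → Bool, mu p z = 1 := by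
  induction n with
  | zero => simp [mu]
  | succ n ih =>
    rw [sum_cons]
    simp only [mu_cons]
    rw [← Finset.mul_sum, ← Finset.mul_sum, ih]
    simp

lemma dist_cons {n : ℕ} (b : Bool) (z g : Fin n → Bool) :
    hammingDist (Fin.cons b z : Fin (n + 1) → Bool) (Fin.cons b g) = hammingDist z g := by
  unfold hammingDist
  rw [Finset.card_filter, Finset.card_filter, Fin.sum_univ_succ]
  simp

lemma dist_cons' {n : ℕ} (b c : Bool) (z g : Fin n → Bool) :
    hammingDist (Fin.cons b z : Fin (n + 1) → Bool) (Fin.cons c g) ≤ hammingDist z g + 1 := by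
  unfold hammingDist
  rw [Finset.card_filter, Finset.card_filter, Fin.sum_univ_succ]
  simp only [Fin.cons_zero, Fin.cons_succ]
  rw [add_comm]
  gcongr
  split_ifs <;> norm_num

/-- the two point inequality -/
lemma two_point {m₀ m₁ g₀ g₁ X₀ X₁ A T : ℝ} (hm0 : 0 ≤ m₀) (hm1 : 0 ≤ m₁) (hm : m₀ + m₁ = 1)
    (hg0 : 0 ≤ g₀) (hg1 : 0 ≤ g₁) (hA : 0 ≤ A) (hT : 1 ≤ T)
    (h00 : g₀ * X₀ ≤ A) (h11 : g₁ * X₁ ≤ A) (h01 : g₀ * X₁ ≤ T * A)
    (hle : g₁ ≤ g₀) :
    (m₀ * g₀ + m₁ * g₁) * (m₀ * X₀ + m₁ * X₁) ≤ A * ((1 + T) ^ 2 / (4 * T)) := by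
  have hT0 : 0 < T := by linarith
  rcases hg0.eq_or_lt with h | h
  · have h1 : g₁ = 0 := by linarith
    rw [← h, h1]
    have : 0 ≤ A * ((1 + T) ^ 2 / (4 * T)) := by positivity
    simpa using this
  have k0 : g₀ ^ 2 * X₀ ≤ A * ((1 + T) * g₀ - T * g₀) := by
    have := mul_le_mul_of_nonneg_left h00 h.le
    nlinarith
  have k1 : g₀ ^ 2 * X₁ ≤ A * ((1 + T) * g₀ - T * g₁) := by
    rcases le_or_gt (T * g₁) g₀ with h2 | h2
    · have e1 : g₀ ^ 2 * X₁ ≤ g₀ * (T * A) := by
        have := mul_le_mul_of_nonneg_left h01 h.le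
        nlinarith
      have e2 : g₀ * T ≤ (1 + T) * g₀ - T * g₁ := by linarith
      have e3 := mul_le_mul_of_nonneg_left e2 hA
      linarith
    · have hg1' : 0 < g₁ := by
        by_contra hcon
        have : g₁ = 0 := le_antisymm (not_lt.1 hcon) hg1
        rw [this] at h2
        linarith
      have e1 : g₁ * (g₀ ^ 2 * X₁) ≤ g₁ * (A * ((1 + T) * g₀ - T * g₁)) := by
        have e2 : g₁ * (g₀ ^ 2 * X₁) ≤ g₀ ^ 2 * A := by
          have := mul_le_mul_of_nonneg_left h11 (sq_nonneg g₀)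
          nlinarith
        have e3 : g₀ ^ 2 ≤ g₁ * ((1 + T) * g₀ - T * g₁) := by
          nlinarith [mul_nonneg (sub_nonneg.2 hle) (sub_nonneg.2 h2.le)]
        have e4 := mul_le_mul_of_nonneg_left e3 hA
        linarith
      exact le_of_mul_le_mul_left e1 hg1'
  obtain ⟨P, hP⟩ : ∃ P, P = m₀ * g₀ + m₁ * g₁ := ⟨_, rfl⟩
  obtain ⟨X, hX⟩ : ∃ X, X = m₀ * X₀ + m₁ * X₁ := ⟨_, rfl⟩
  rw [← hP, ← hX]
  have hP0 : 0 ≤ P := by rw [hP]; positivity
  have k2 : g₀ ^ 2 * X ≤ A * ((1 + T) * g₀ - T * P) := by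
    have e1 := mul_le_mul_of_nonneg_left k0 hm0
    have e2 := mul_le_mul_of_nonneg_left k1 hm1
    have e3 : A * ((1 + T) * g₀ - T * P) = m₀ * (A * ((1 + T) * g₀ - T * g₀)) +
        m₁ * (A * ((1 + T) * g₀ - T * g₁)) := by
      rw [hP]
      linear_combination (-(A * (1 + T) * g₀)) * hm
    rw [e3, hX]
    linarith
  have k3 : g₀ ^ 2 * (P * X) ≤ g₀ ^ 2 * (A * ((1 + T) ^ 2 / (4 * T))) := by
    have e1 : g₀ ^ 2 * (P * X) ≤ P * (A * ((1 + T) * g₀ - T * P)) := by
      have := mul_le_mul_of_nonneg_left k2 hP0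
      linarith
    have e2 : P * ((1 + T) * g₀ - T * P) ≤ g₀ ^ 2 * ((1 + T) ^ 2 / (4 * T)) := by
      rw [← mul_div_assoc, le_div_iff₀ (by positivity)]
      nlinarith [sq_nonneg (2 * T * P - (1 + T) * g₀)]
    have e3 := mul_le_mul_of_nonneg_left e2 hA
    linarith
  exact le_of_mul_le_mul_left k3 (by positivity)

/-- **Talagrand.** If `f ≤ dist(·, G)`, then `P(G) E[exp (t f)] ≤ ((1 + e^t)² / (4 e^t))^n`. -/
theorem tal {p t : ℝ} (h0 : 0 ≤ p) (h1 : p ≤ 1) (ht : 0 ≤ t) :
    ∀ (n : ℕ) (G : Finset (Fin n → Bool)) (f : (Fin n → Bool) → ℝ),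
      (∀ z, ∀ g ∈ G, f z ≤ hammingDist z g) →
      (∑ g ∈ G, mu p g) * ∑ z, mu p z * Real.exp (t * f z) ≤
        ((1 + Real.exp t) ^ 2 / (4 * Real.exp t)) ^ n := by
  intro n
  have hT : 1 ≤ Real.exp t := Real.one_le_exp ht
  induction n with
  | zero =>
    intro G f hf
    rcases G.eq_empty_or_nonempty with h | ⟨g, hg⟩
    · rw [h]; simp
    · have h2 : ∑ g ∈ G, mu p g ≤ 1 := by
        refine (Finset.sum_le_sum_of_subset_of_nonneg (Finset.subset_univ G)
          fun z _ _ => mu_nonneg h0 h1 z).trans (le_of_eq (sum_mu p 0))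
      have h3 : ∑ z : Fin 0 → Bool, mu p z * Real.exp (t * f z) ≤ 1 := by
        rw [← sum_mu p 0]
        refine Finset.sum_le_sum fun z _ => ?_
        have h4 := hf z g hg
        have h5 : hammingDist z g = 0 := by
          rw [Subsingleton.elim z g, hammingDist_self]
        rw [h5] at h4
        have h6 : Real.exp (t * f z) ≤ 1 := by
          rw [Real.exp_le_one_iff]
          have : f z ≤ 0 := by simpa using h4
          nlinarith
        have := mul_le_mul_of_nonneg_left h6 (mu_nonneg h0 h1 z)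
        linarith
      have h4 : 0 ≤ ∑ z : Fin 0 → Bool, mu p z * Real.exp (t * f z) :=
        Finset.sum_nonneg fun z _ => mul_nonneg (mu_nonneg h0 h1 z) (Real.exp_pos _).le
      rw [pow_zero]
      calc _ ≤ 1 * (1 : ℝ) := mul_le_mul h2 h3 h4 zero_le_one
        _ = 1 := one_mul 1
  | succ n ih =>
    intro G f hf
    obtain ⟨A, hA⟩ : ∃ A, A = ((1 + Real.exp t) ^ 2 / (4 * Real.exp t)) ^ n := ⟨_, rfl⟩
    have hA0 : 0 ≤ A := by rw [hA]; positivity
    -- the sections
    let S : Bool → Finset (Fin n → Bool) := fun b => univ.filter fun z => Fin.cons b z ∈ G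
    let g : Bool → ℝ := fun b => ∑ z ∈ S b, mu p z
    let X : Bool → ℝ := fun b => ∑ z : Fin n → Bool, mu p z * Real.exp (t * f (Fin.cons b z))
    have hg : ∀ b, 0 ≤ g b := fun b => Finset.sum_nonneg fun z _ => mu_nonneg h0 h1 z
    have hX : ∀ b, 0 ≤ X b := fun b => Finset.sum_nonneg fun z _ =>
      mul_nonneg (mu_nonneg h0 h1 z) (Real.exp_pos _).le
    have hsame : ∀ b, g b * X b ≤ A := by
      intro b
      rw [hA]
      refine ih (S b) (fun z => f (Fin.cons b z)) fun z y hy => ?_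
      have h2 := hf (Fin.cons b z) (Fin.cons b y) (Finset.mem_filter.1 hy).2
      rwa [dist_cons] at h2
    have hdiff : ∀ b c, g c * X b ≤ Real.exp t * A := by
      intro b c
      have h2 := ih (S c) (fun z => f (Fin.cons b z) - 1) fun z y hy => by
        have h2 := hf (Fin.cons b z) (Fin.cons c y) (Finset.mem_filter.1 hy).2
        have h3 : (hammingDist (Fin.cons b z : Fin (n + 1) → Bool) (Fin.cons c y) : ℝ) ≤
            hammingDist z y + 1 := by exact_mod_cast dist_cons' b c z y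
        linarith
      rw [← hA] at h2
      have h3 : ∑ z : Fin n → Bool, mu p z * Real.exp (t * (f (Fin.cons b z) - 1)) =
          Real.exp (-t) * X b := by
        rw [Finset.mul_sum]
        refine Finset.sum_congr rfl fun z _ => ?_
        rw [mul_sub, mul_one, sub_eq_add_neg, Real.exp_add]; ring
      rw [h3] at h2
      have h4 : g c * X b = Real.exp t * (g c * (Real.exp (-t) * X b)) := by
        have : Real.exp t * Real.exp (-t) = 1 := by rw [← Real.exp_add]; simp
        calc g c * X b = (Real.exp t * Real.exp (-t)) * (g c * X b) := by rw [this, one_mul]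
          _ = _ := by ring
      rw [h4]
      exact mul_le_mul_of_nonneg_left h2 (Real.exp_pos t).le
    have e1 : ∑ z ∈ G, mu p z = (1 - p) * g false + p * g true := by
      have e2 : ∑ z ∈ G, mu p z = ∑ z : Fin (n + 1) → Bool, if z ∈ G then mu p z else 0 := by
        rw [Finset.sum_ite_mem, Finset.univ_inter]
      rw [e2, sum_cons]
      simp only [g, S, Finset.mul_sum, Finset.sum_filter, mu_cons]
      congr 1
      · refine Finset.sum_congr rfl fun z _ => ?_
        split_ifs <;> simp_all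
      · refine Finset.sum_congr rfl fun z _ => ?_
        split_ifs <;> simp_all
    have e2 : ∑ z : Fin (n + 1) → Bool, mu p z * Real.exp (t * f z) =
        (1 - p) * X false + p * X true := by
      rw [sum_cons]
      simp only [X, Finset.mul_sum, mu_cons]
      congr 1
      · refine Finset.sum_congr rfl fun z _ => ?_
        simp; ring
      · refine Finset.sum_congr rfl fun z _ => ?_
        simp; ring
    rw [e1, e2, pow_succ, ← hA]
    rcases le_total (g true) (g false) with h | h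
    · exact two_point (by linarith) h0 (by ring) (hg _) (hg _) hA0 hT (hsame _)
        (hsame _) (hdiff _ _) h
    · have := two_point h0 (by linarith : 0 ≤ 1 - p) (by ring) (hg true) (hg false) hA0 hT (hsame _) (hsame _) (hdiff _ _) h
      calc _ = (p * g true + (1 - p) * g false) * (p * X true + (1 - p) * X false) := by ring
        _ ≤ _ := this

lemma factor_le (t : ℝ) : (1 + Real.exp t) ^ 2 / (4 * Real.exp t) ≤ Real.exp (t ^ 2 / 4) := by
  have h1 : (1 + Real.exp t) ^ 2 / (4 * Real.exp t) = Real.cosh (t / 2) ^ 2 := by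
    rw [Real.cosh_eq, div_pow]
    have e1 : Real.exp t = Real.exp (t / 2) * Real.exp (t / 2) := by
      rw [← Real.exp_add]; congr 1; ring
    have e2 : Real.exp (t / 2) * Real.exp (-(t / 2)) = 1 := by rw [← Real.exp_add]; simp
    have h3 : Real.exp (t / 2) ≠ 0 := (Real.exp_pos _).ne'
    rw [div_eq_div_iff (by positivity) (by norm_num), e1]
    have e4 : Real.exp (t/2) * (Real.exp (t / 2) + Real.exp (-(t / 2))) = 1 + Real.exp (t/2) * Real.exp (t/2) := by
      rw [mul_add, e2]; ring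
    calc (1 + Real.exp (t / 2) * Real.exp (t / 2)) ^ 2 * 2 ^ 2
        = (Real.exp (t/2) * (Real.exp (t / 2) + Real.exp (-(t / 2)))) ^ 2 * 2 ^ 2 := by rw [e4]
      _ = _ := by ring
  rw [h1]
  have h2 := Real.cosh_le_exp_half_sq (t / 2)
  calc Real.cosh (t / 2) ^ 2 ≤ Real.exp ((t / 2) ^ 2 / 2) ^ 2 :=
        pow_le_pow_left₀ (Real.cosh_pos _).le h2 2
    _ = Real.exp (t ^ 2 / 4) := by
        rw [← Real.exp_nat_mul]; congr 1; push_cast; ring

/-- words far from `G` are rare -/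
theorem blowup {p : ℝ} (h0 : 0 ≤ p) (h1 : p ≤ 1) {n : ℕ} (G B : Finset (Fin n → Bool)) {K κ : ℝ}
    (hκ : 0 ≤ κ) (hK : K = κ * n) (hB : ∀ z ∈ B, ∀ g ∈ G, K ≤ hammingDist z g) :
    (∑ g ∈ G, mu p g) * ∑ z ∈ B, mu p z ≤ Real.exp (-(κ ^ 2 * n)) := by
  classical
  have hs := tal h0 h1 (mul_nonneg zero_le_two hκ) n G (fun z => if z ∈ B then K else 0) (by
    intro z g hg
    split_ifs with h
    · exact hB z h g hg
    · exact Nat.cast_nonneg _)
  have h2 : Real.exp (2 * κ * K) * ∑ z ∈ B, mu p z ≤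
      ∑ z, mu p z * Real.exp (2 * κ * (if z ∈ B then K else 0)) := by
    rw [Finset.mul_sum]
    calc ∑ z ∈ B, Real.exp (2 * κ * K) * mu p z
        = ∑ z ∈ B, mu p z * Real.exp (2 * κ * (if z ∈ B then K else 0)) := by
          refine Finset.sum_congr rfl fun z hz => ?_
          rw [if_pos hz]; ring
      _ ≤ _ := Finset.sum_le_sum_of_subset_of_nonneg (Finset.subset_univ _)
          fun z _ _ => mul_nonneg (mu_nonneg h0 h1 z) (Real.exp_pos _).le
  have h3 : 0 ≤ ∑ g ∈ G, mu p g := Finset.sum_nonneg fun z _ => mu_nonneg h0 h1 z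
  have h4 : ((1 + Real.exp (2 * κ)) ^ 2 / (4 * Real.exp (2 * κ))) ^ n ≤
      Real.exp (κ ^ 2 * n) := by
    calc _ ≤ Real.exp ((2 * κ) ^ 2 / 4) ^ n :=
          pow_le_pow_left₀ (by positivity) (factor_le _) n
      _ = Real.exp (κ ^ 2 * n) := by
          rw [← Real.exp_nat_mul]; congr 1; ring
  have h5 : Real.exp (2 * κ * K) * ((∑ g ∈ G, mu p g) * ∑ z ∈ B, mu p z) ≤
      Real.exp (κ ^ 2 * n) := by
    calc _ = (∑ g ∈ G, mu p g) * (Real.exp (2 * κ * K) * ∑ z ∈ B, mu p z) := by ring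
      _ ≤ (∑ g ∈ G, mu p g) * ∑ z, mu p z * Real.exp (2 * κ * (if z ∈ B then K else 0)) :=
          mul_le_mul_of_nonneg_left h2 h3
      _ ≤ _ := hs.trans h4
  have h6 : Real.exp (-(κ ^ 2 * n)) = Real.exp (κ ^ 2 * n) / Real.exp (2 * κ * K) := by
    rw [← Real.exp_sub]; congr 1; rw [hK]; ring
  rw [h6, le_div_iff₀ (Real.exp_pos _)]
  linarith

end Pool.Agent.H2x430
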